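import Pool.Agent.PWY.St

/-!
# Campaign PWY: module Let, the law of a letter does not depend on the place
-/

set_option autoImplicit false

open scoped BigOperators

namespace Pool.Agent.PWY

open Pool.Agent.PW Pool.Agent.PWM Pool.Agent.PWB Pool.Agent.PWX Pool.Agent.PWF Pool.Agent.PWL
open scoped Classical

private theorem Let_sum {Ω : Type} (O : Finset Ω) (f : Ω → Ω) (hf : ∀ x ∈ O, f x ∈ O)
    (hi : Set.InjOn f (O : Set Ω)) (F : Ω → ℝ) : ∑ x ∈ O, F (f x) = ∑ x ∈ O, F x := by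
  have hs : Set.SurjOn f (O : Set Ω) (O : Set Ω) :=
    Finset.surjOn_of_injOn_of_card_le f (fun x hx => hf x hx) hi le_rfl
  exact Finset.sum_nbij f hf hi hs fun _ _ => rfl

theorem thm_Let : St_Let := by
  intro hFrt G _ _ M φ a
  refine ⟨fun h => ?_, fun h => ?_⟩
  · obtain ⟨f, h1, h2, h3⟩ := hFrt.2.2.2.1 M.length (cls M) (cl_cls M) a h
    rw [← Let_sum (cls M) f h1 h2 fun L => φ (hd2 L)]
    refine Finset.sum_congr rfl fun L hL => ?_
    rw [hd2_eq]
    unfold lt
    rw [(h3 L hL).1]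
  · obtain ⟨f, h1, h2, h3⟩ := hFrt.2.2.2.2 M.length (cls M) (cl_cls M) a h
    rw [← Let_sum (cls M) f h1 h2 fun L => φ (hd2 L)]
    refine Finset.sum_congr rfl fun L hL => ?_
    rw [h3 L hL]
    rfl

end Pool.Agent.PWY
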