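import Pool.Agent.PWY.St

/-!
# Campaign PWY: module Avg, averages over a class
-/

set_option autoImplicit false

open scoped BigOperators

namespace Pool.Agent.PWY

open Pool.Agent.PW Pool.Agent.PWM Pool.Agent.PWB Pool.Agent.PWX Pool.Agent.PWF Pool.Agent.PWL
open scoped Classical

private theorem Avg_ind {G : Type} [Group G] [Fintype G] (L : List (G × G)) (g : G) :
    ∑ L' ∈ cls L, (if hd2 L' = g then (1 : ℝ) else 0) = ((cls L).card : ℝ) * lam L g := by
  rw [← lam_mul L fun x => if x = g then (1 : ℝ) else 0]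
  congr 1
  rw [Finset.sum_eq_single g]
  · simp
  · intro b _ hb
    simp [hb]
  · intro h
    exact absurd (Finset.mem_univ g) h

private theorem Avg_hd {G : Type} [Group G] (L : List (G × G)) (a : ℕ) (ha : 1 ≤ a) :
    hd2 (L.take a) = hd2 L := by
  obtain ⟨b, rfl⟩ := Nat.exists_eq_succ_of_ne_zero (by omega : a ≠ 0)
  cases L with
  | nil => rfl
  | cons p L => rfl

theorem thm_Avg : St_Avg := by
  intro hFrt hDis hLet G _ _ M a ha hM
  have hc : ∀ L : List (G × G), ((cls L).card : ℝ) ≠ 0 := fun L => by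
    have := card_cls_pos L
    positivity
  refine ⟨fun g => ?_, fun g => ?_, fun φ => ?_⟩
  · have h1 := hDis M 0 a fun _ U _ => if hd2 U = g then (1 : ℝ) else 0
    simp only [List.drop_zero] at h1
    rw [← Avg_ind M g]
    calc ∑ L ∈ cls M, lam (L.take a) g
        = ∑ L ∈ cls M, (∑ U ∈ cls (L.take a), if hd2 U = g then (1 : ℝ) else 0) /
            ((cls (L.take a)).card : ℝ) := by
          refine Finset.sum_congr rfl fun L _ => ?_
          rw [Avg_ind, mul_div_cancel_left₀ _ (hc _)]
      _ = ∑ L ∈ cls M, (if hd2 (L.take a) = g then (1 : ℝ) else 0) := h1.symm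
      _ = ∑ L ∈ cls M, (if hd2 L = g then (1 : ℝ) else 0) :=
          Finset.sum_congr rfl fun L _ => by rw [Avg_hd L a ha]
  · have h1 := hDis M 0 a fun _ U R => if lt 0 R * hd2 U = g then (1 : ℝ) else 0
    simp only [List.drop_zero, Nat.zero_add] at h1
    have hlt : ∀ L : List (G × G), lt 0 (L.drop a) = lt a L := fun L => by
      unfold lt
      rw [List.getElem?_drop, Nat.add_zero]
    have h2 := (hLet hFrt M (fun x => if x = g then (1 : ℝ) else 0) (a - 1)).2 (by omega)
    rw [Nat.sub_add_cancel ha] at h2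
    rw [← Avg_ind M g, ← h2]
    calc ∑ L ∈ cls M, tr (lt a L) (lam (L.take a)) g
        = ∑ L ∈ cls M, (∑ U ∈ cls (L.take a), if lt 0 (L.drop a) * hd2 U = g then (1 : ℝ) else 0) /
            ((cls (L.take a)).card : ℝ) := by
          refine Finset.sum_congr rfl fun L _ => ?_
          have h3 : ∑ U ∈ cls (L.take a), (if lt 0 (L.drop a) * hd2 U = g then (1 : ℝ) else 0) =
              ∑ U ∈ cls (L.take a), (if hd2 U = (lt a L)⁻¹ * g then (1 : ℝ) else 0) := by
            refine Finset.sum_congr rfl fun U _ => ?_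
            rw [hlt]
            exact if_congr eq_inv_mul_iff_mul_eq.symm rfl rfl
          rw [h3, Avg_ind, mul_div_cancel_left₀ _ (hc _)]
          rfl
      _ = ∑ L ∈ cls M, (if lt 0 (L.drop a) * hd2 (L.take a) = g then (1 : ℝ) else 0) := h1.symm
      _ = ∑ L ∈ cls M, (if lt a L * hd2 L = g then (1 : ℝ) else 0) :=
          Finset.sum_congr rfl fun L _ => by rw [Avg_hd L a ha, hlt]
  · rw [(hLet hFrt M φ a).1 (by omega), lam_mul]

end Pool.Agent.PWY
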