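import Pool.Agent.PWY.St

/-!
# Campaign PWY: Cjv (conjugation)
-/

set_option autoImplicit false

open scoped BigOperators

namespace Pool.Agent.PWY

open Pool.Agent.PW Pool.Agent.PWM Pool.Agent.PWB Pool.Agent.PWX Pool.Agent.PWF Pool.Agent.PWL
open scoped Classical

private theorem Cjv_inv {G : Type} [Group G] (c : G) (p : G × G) : cj c⁻¹ (cj c p) = p := by
  unfold cj
  ext <;> simp only <;> group

private theorem Cjv_inv' {G : Type} [Group G] (c : G) (p : G × G) : cj c (cj c⁻¹ p) = p := by
  unfold cj
  ext <;> simp only <;> group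

private theorem Cjv_step {G : Type} [Group G] (c : G) (lo hi : ℕ) {x y : ℕ → G × G}
    (h : Step lo hi x y) : Step lo hi (fun i => cj c (x i)) (fun i => cj c (y i)) := by
  have hu : ∀ (z : ℕ → G × G) (l : ℕ) (a : G × G),
      (fun i => cj c (Function.update z l a i)) = Function.update (fun i => cj c (z i)) l (cj c a) := by
    intro z l a
    funext i
    by_cases hi : i = l
    · subst hi
      simp
    · simp [Function.update_of_ne hi]
  cases h with
  | swap l h1 h2 =>
    have h3 := Step.swap (fun i => cj c (x i)) l h1 h2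
    rw [hu, hu]
    have e1 : cj c (cj (dd (x (l + 1)))⁻¹ (x l)) = cj (dd (cj c (x (l + 1))))⁻¹ (cj c (x l)) := by
      unfold cj dd
      ext <;> simp only <;> group
    rw [e1]
    exact h3
  | rot l h1 h2 =>
    have h3 := Step.rot (fun i => cj c (x i)) l h1 h2
    rw [hu]
    have e1 : cj c (rt (x l)) = rt (cj c (x l)) := by
      unfold cj rt
      ext <;> simp only <;> group
    rw [e1]
    exact h3
  | slide l h1 h2 =>
    have h3 := Step.slide (fun i => cj c (x i)) l h1 h2
    rw [hu, hu]
    have e1 : cj c ((x l).1, (tv (x (l + 1)))⁻¹ * (x l).2) =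
        ((cj c (x l)).1, (tv (cj c (x (l + 1))))⁻¹ * (cj c (x l)).2) := by
      unfold cj tv
      ext <;> simp only <;> group
    have e2 : cj c ((tv (x (l + 1)))⁻¹ * ((x l).2 * (x l).1 * (x l).2⁻¹) * tv (x (l + 1)) *
          (x (l + 1)).1, (x (l + 1)).2) =
        ((tv (cj c (x (l + 1))))⁻¹ * ((cj c (x l)).2 * (cj c (x l)).1 * (cj c (x l)).2⁻¹) *
          tv (cj c (x (l + 1))) * (cj c (x (l + 1))).1, (cj c (x (l + 1))).2) := by
      unfold cj tv
      ext <;> simp only <;> group
    rw [e1, e2]
    exact h3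

private theorem Cjv_go {G : Type} [Group G] (c : G) (lo hi : ℕ) {x y : ℕ → G × G}
    (h : Go lo hi x y) : Go lo hi (fun i => cj c (x i)) (fun i => cj c (y i)) := by
  unfold Go at h ⊢
  induction h with
  | refl => exact Relation.ReflTransGen.refl
  | tail _ h1 h2 => exact h2.tail (Cjv_step c lo hi h1)

private theorem Cjv_lg {G : Type} [Group G] (c : G) {L L' : List (G × G)} (h : LG L L') :
    LG (L.map (cj c)) (L'.map (cj c)) := by
  refine ⟨by simpa using h.1, fun m x hx => ?_⟩
  obtain ⟨y, hy, hy'⟩ := h.2 m (fun i => cj c⁻¹ (x i)) (by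
    intro i hi
    have := hx i (by simpa using hi)
    simp only [List.getElem_map] at this
    show cj c⁻¹ (x (m + i)) = L[i]
    rw [this, Cjv_inv])
  refine ⟨fun i => cj c (y i), ?_, ?_⟩
  · have h3 := Cjv_go c _ _ hy
    simp only [Cjv_inv'] at h3
    simpa using h3
  · intro i hi
    have h4 := hy' i (by simpa using hi)
    simp only [List.getElem_map]
    rw [h4]

theorem thm_Cjv : St_Cjv := by
  intro G _ _ c L
  refine ⟨fun L' h => Cjv_lg c h, fun q => ?_⟩
  have hinj : Function.Injective (List.map (cj c) : List (G × G) → List (G × G)) := by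
    rw [List.map_injective_iff]
    intro p p' h
    have := congrArg (cj c⁻¹) h
    rwa [Cjv_inv, Cjv_inv] at this
  have himg : cls (L.map (cj c)) = (cls L).image (List.map (cj c)) := by
    ext L'
    rw [Finset.mem_image]
    constructor
    · intro h
      rw [mem_cls] at h
      have h2 := Cjv_lg c⁻¹ h
      refine ⟨L'.map (cj c⁻¹), ?_, ?_⟩
      · rw [mem_cls]
        rw [List.map_map] at h2
        have h3 : (cj c⁻¹ ∘ cj c : G × G → G × G) = id := funext fun p => Cjv_inv c p
        rwa [h3, List.map_id] at h2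
      · rw [List.map_map]
        have h3 : (cj c ∘ cj c⁻¹ : G × G → G × G) = id := funext fun p => Cjv_inv' c p
        rw [h3, List.map_id]
    · rintro ⟨L'', h, rfl⟩
      rw [mem_cls] at h ⊢
      exact Cjv_lg c h
  have hcard : (cls (L.map (cj c))).card = (cls L).card := by
    rw [himg, Finset.card_image_of_injective _ hinj]
  have hhd : ∀ L' : List (G × G), hd2 (L'.map (cj c)) = c * hd2 L' * c⁻¹ := by
    intro L'
    cases L' with
    | nil => simp [hd2]
    | cons p T => simp [hd2, cj]
  have hcnt : cnt (cls (L.map (cj c))) hd2 (c * q * c⁻¹) = cnt (cls L) hd2 q := by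
    unfold cnt
    rw [himg, Finset.filter_image, Finset.card_image_of_injective _ hinj]
    congr 1
    refine Finset.filter_congr fun L' _ => ?_
    rw [hhd]
    simp
  unfold lam
  rw [hcard, hcnt]

end Pool.Agent.PWY
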