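import Pool.Agent.PWY.St

/-!
# Campaign PWY, module Dis: a block is uniform on its class
-/

set_option autoImplicit false

open scoped BigOperators

namespace Pool.Agent.PWY

open Pool.Agent.PW Pool.Agent.PWM Pool.Agent.PWB Pool.Agent.PWX Pool.Agent.PWF Pool.Agent.PWL
open scoped Classical

section

variable {α : Type}

private theorem Dis_split (a b : ℕ) (L : List α) :
    L = L.take a ++ (L.drop a).take b ++ L.drop (a + b) := by
  conv_lhs => rw [← List.take_append_drop a L, ← List.take_append_drop b (L.drop a)]
  rw [List.drop_drop, List.append_assoc]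

/-- The three parts after a change of the middle block. -/
private theorem Dis_parts (a b : ℕ) (L U' : List α)
    (hU : U'.length = ((L.drop a).take b).length) :
    (L.take a ++ U' ++ L.drop (a + b)).take a = L.take a ∧
    ((L.take a ++ U' ++ L.drop (a + b)).drop a).take b = U' ∧
    (L.take a ++ U' ++ L.drop (a + b)).drop (a + b) = L.drop (a + b) := by
  rw [List.length_take, List.length_drop] at hU
  rcases Nat.lt_or_ge L.length (a + b) with h | h
  · have e1 : L.drop (a + b) = [] := List.drop_of_length_le (by omega)
    rw [e1, List.append_nil]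
    rcases Nat.lt_or_ge L.length a with h' | h'
    · have e2 : U' = [] := List.eq_nil_of_length_eq_zero (by omega)
      rw [e2, List.append_nil, List.take_of_length_le (by omega : L.length ≤ a)]
      refine ⟨List.take_of_length_le (by omega), ?_, List.drop_of_length_le (by omega)⟩
      rw [List.drop_of_length_le (by omega), List.take_nil]
    · have hl : (L.take a).length = a := by rw [List.length_take]; omega
      refine ⟨?_, ?_, ?_⟩
      · rw [List.take_append_of_le_length (by omega), List.take_of_length_le (by omega)]
      · rw [List.drop_append_of_le_length (by omega), List.drop_of_length_le (by omega),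
          List.nil_append, List.take_of_length_le (by omega)]
      · exact List.drop_of_length_le (by rw [List.length_append]; omega)
  · have hl : (L.take a).length = a := by rw [List.length_take]; omega
    have hu : U'.length = b := by omega
    refine ⟨?_, ?_, ?_⟩
    · rw [List.append_assoc, List.take_append_of_le_length (by omega),
        List.take_of_length_le (by omega)]
    · rw [List.append_assoc, List.drop_append_of_le_length (by omega),
        List.drop_of_length_le (by omega), List.nil_append,
        List.take_append_of_le_length (by omega), List.take_of_length_le (by omega)]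
    · rw [List.drop_append_of_le_length (by rw [List.length_append]; omega),
        List.drop_of_length_le (by rw [List.length_append]; omega), List.nil_append]

end

theorem thm_Dis : St_Dis := by
  intro G _ _ M a b F
  -- the pairs
  have h1 : ∑ L ∈ cls M, (∑ U ∈ cls ((L.drop a).take b), F (L.take a) U (L.drop (a + b))) /
      ((cls ((L.drop a).take b)).card : ℝ) =
      ∑ x ∈ (cls M).sigma (fun L => cls ((L.drop a).take b)),
        F (x.1.take a) x.2 (x.1.drop (a + b)) / ((cls ((x.1.drop a).take b)).card : ℝ) := by
    rw [Finset.sum_sigma]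
    exact Finset.sum_congr rfl fun L _ => Finset.sum_div _ _ _
  have h2 : ∑ L ∈ cls M, F (L.take a) ((L.drop a).take b) (L.drop (a + b)) =
      ∑ x ∈ (cls M).sigma (fun L => cls ((L.drop a).take b)),
        F (x.1.take a) ((x.1.drop a).take b) (x.1.drop (a + b)) /
          ((cls ((x.1.drop a).take b)).card : ℝ) := by
    rw [Finset.sum_sigma]
    refine Finset.sum_congr rfl fun L _ => ?_
    have h0 : ((cls ((L.drop a).take b)).card : ℝ) ≠ 0 := by
      have := card_cls_pos ((L.drop a).take b)
      positivity
    show _ = ∑ U ∈ cls ((L.drop a).take b),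
      F (L.take a) ((L.drop a).take b) (L.drop (a + b)) / ((cls ((L.drop a).take b)).card : ℝ)
    rw [Finset.sum_const, nsmul_eq_mul]
    field_simp
  rw [h1, h2]
  let s : (_ : List (G × G)) × List (G × G) → (_ : List (G × G)) × List (G × G) :=
    fun x => ⟨x.1.take a ++ x.2 ++ x.1.drop (a + b), (x.1.drop a).take b⟩
  have key : ∀ x ∈ (cls M).sigma (fun L => cls ((L.drop a).take b)),
      (s x).1.take a = x.1.take a ∧ ((s x).1.drop a).take b = x.2 ∧
        (s x).1.drop (a + b) = x.1.drop (a + b) := by
    intro x hx
    exact Dis_parts a b x.1 x.2 (len_cls (Finset.mem_sigma.1 hx).2)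
  have mem : ∀ x ∈ (cls M).sigma (fun L => cls ((L.drop a).take b)),
      s x ∈ (cls M).sigma (fun L => cls ((L.drop a).take b)) := by
    intro x hx
    obtain ⟨k1, k2, k3⟩ := key x hx
    obtain ⟨m1, m2⟩ := Finset.mem_sigma.1 hx
    rw [Finset.mem_sigma]
    refine ⟨?_, ?_⟩
    · have h3 := app_cls (x.1.take a) (x.1.drop (a + b)) m2
      rw [← Dis_split a b x.1, cls_eq m1] at h3
      exact h3
    · show (x.1.drop a).take b ∈ cls (((s x).1.drop a).take b)
      rw [k2, cls_eq m2]
      exact self_mem _
  have inv : ∀ x ∈ (cls M).sigma (fun L => cls ((L.drop a).take b)), s (s x) = x := by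
    intro x hx
    obtain ⟨k1, k2, k3⟩ := key x hx
    show (⟨(s x).1.take a ++ (x.1.drop a).take b ++ (s x).1.drop (a + b),
      ((s x).1.drop a).take b⟩ : (_ : List (G × G)) × List (G × G)) = x
    rw [k1, k2, k3, ← Dis_split a b x.1]
  refine Finset.sum_nbij' s s mem mem inv inv ?_
  intro x hx
  obtain ⟨k1, k2, k3⟩ := key x hx
  obtain ⟨m1, m2⟩ := Finset.mem_sigma.1 hx
  rw [k1, k2, k3, cls_eq m2]

end Pool.Agent.PWY
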