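import Pool.Agent.PWY.StA

/-!
# Campaign PWY: Ent (bounds for the entropy; translations)
-/

set_option autoImplicit false

open scoped BigOperators

namespace Pool.Agent.PWY

open scoped Classical

theorem thm_Ent : St_Ent := by
  intro hPin G _ _ μ hμ
  have hle : ∀ g, μ g ≤ 1 := by
    intro g
    rw [← hμ.sum]
    exact Finset.single_le_sum (f := μ) (fun i _ => hμ.nn i) (Finset.mem_univ g)
  have hc : (0 : ℝ) < (Fintype.card G : ℝ) := by
    have : 0 < Fintype.card G := Fintype.card_pos
    exact_mod_cast this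
  refine ⟨Finset.sum_nonneg fun g _ => Real.negMulLog_nonneg (hμ.nn g) (hle g), ?_, ?_⟩
  · have hU : Pr (fun _ : G => ((Fintype.card G : ℝ))⁻¹) := by
      refine ⟨fun _ => (inv_pos.2 hc).le, ?_⟩
      rw [Finset.sum_const, Finset.card_univ, nsmul_eq_mul]
      exact mul_inv_cancel₀ hc.ne'
    have h1 := hPin μ (fun _ : G => ((Fintype.card G : ℝ))⁻¹) hμ hU
      (fun g hg => absurd hg (inv_pos.2 hc).ne')
    have h2 : ∑ g, μ g * (Real.log (μ g) - Real.log ((Fintype.card G : ℝ))⁻¹)
        = - ent μ + Real.log (Fintype.card G) := by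
      unfold ent
      rw [Real.log_inv]
      have h3 : ∀ g, μ g * (Real.log (μ g) - -Real.log (Fintype.card G : ℝ))
          = - Real.negMulLog (μ g) + μ g * Real.log (Fintype.card G : ℝ) := by
        intro g
        unfold Real.negMulLog
        ring
      rw [Finset.sum_congr rfl fun g _ => h3 g, Finset.sum_add_distrib, Finset.sum_neg_distrib,
        ← Finset.sum_mul, hμ.sum, one_mul]
    rw [h2] at h1
    have h4 := sq_nonneg (N1 μ (fun _ : G => ((Fintype.card G : ℝ))⁻¹))
    linarith
  · intro x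
    have hb : ∀ f : G → ℝ, ∑ g, f (x⁻¹ * g) = ∑ g, f g := fun f =>
      Equiv.sum_comp (Equiv.mulLeft x⁻¹) f
    refine ⟨⟨fun g => hμ.nn _, ?_⟩, ?_, ?_⟩
    · exact (hb μ).trans hμ.sum
    · exact hb fun g => Real.negMulLog (μ g)
    · intro ν
      exact hb fun g => |μ g - ν g|

end Pool.Agent.PWY
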