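import Pool.Agent.PWY.St

/-!
# Campaign PWY, module Fin: a simple closed curve in the kernel
-/

set_option autoImplicit false

open scoped BigOperators

namespace Pool.Agent.PWY

open Pool.Agent.PW Pool.Agent.PWM Pool.Agent.PWB Pool.Agent.PWX Pool.Agent.PWF Pool.Agent.PWL
open scoped Classical

/-- Two events of large probability, one of them pulled back by a permutation. -/
private theorem Fin_two {Ω : Type} (O : Finset Ω) (hO : O.Nonempty) (P : Ω → Prop) (f : Ω → Ω)
    (hf1 : ∀ ω ∈ O, f ω ∈ O) (hf2 : Set.InjOn f (O : Set Ω))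
    (h : ((O.filter fun ω => ¬ P ω).card : ℝ) ≤ 15 / 32 * (O.card : ℝ)) :
    ∃ ω ∈ O, P ω ∧ P (f ω) := by
  by_contra hc
  push Not at hc
  have h1 : (O.filter fun ω => ¬ P (f ω)).card ≤ (O.filter fun ω => ¬ P ω).card := by
    refine Finset.card_le_card_of_injOn f ?_ ?_
    · intro ω hω
      have hω' := Finset.mem_filter.1 (Finset.mem_coe.1 hω)
      exact Finset.mem_coe.2 (Finset.mem_filter.2 ⟨hf1 ω hω'.1, hω'.2⟩)
    · intro x hx y hy hxy
      exact hf2 (Finset.mem_coe.2 (Finset.mem_filter.1 (Finset.mem_coe.1 hx)).1)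
        (Finset.mem_coe.2 (Finset.mem_filter.1 (Finset.mem_coe.1 hy)).1) hxy
  have h2 : O ⊆ (O.filter fun ω => ¬ P ω) ∪ (O.filter fun ω => ¬ P (f ω)) := by
    intro ω hω
    rw [Finset.mem_union, Finset.mem_filter, Finset.mem_filter]
    by_cases h3 : P ω
    · exact Or.inr ⟨hω, hc ω hω h3⟩
    · exact Or.inl ⟨hω, h3⟩
  have h3 : O.card ≤ (O.filter fun ω => ¬ P ω).card + (O.filter fun ω => ¬ P (f ω)).card :=
    (Finset.card_le_card h2).trans (Finset.card_union_le _ _)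
  have h4 : (O.card : ℝ) ≤ (O.filter fun ω => ¬ P ω).card + (O.filter fun ω => ¬ P (f ω)).card := by
    exact_mod_cast h3
  have h5 : ((O.filter fun ω => ¬ P (f ω)).card : ℝ) ≤ (O.filter fun ω => ¬ P ω).card := by
    exact_mod_cast h1
  have h6 : (0 : ℝ) < O.card := by
    exact_mod_cast Finset.card_pos.2 hO
  linarith

/-- The last step: two inverse letters in disjoint blocks. -/
private theorem Fin_last {G : Type} [Group G] (hFrt : St_Frt) (T' U' R : List (G × G))
    (hT : T' ≠ []) (hU : U' ≠ []) (h : hd2 U' * hd2 T' = 1) :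
    ∃ (p : G × G) (L' : List (G × G)), LG (T' ++ U' ++ R) (p :: L') ∧ p.2 = 1 := by
  obtain ⟨t, T₁, rfl⟩ := List.exists_cons_of_ne_nil hT
  obtain ⟨v, U₁, rfl⟩ := List.exists_cons_of_ne_nil hU
  obtain ⟨hrefl, htrans, -, happ, -, -, -⟩ := PWH.bBas
  have e0 : (t :: T₁) ++ (v :: U₁) ++ R = t :: (T₁ ++ v :: (U₁ ++ R)) := by simp
  have h1 := hFrt.1 T₁ (U₁ ++ R) v
  have h2 : LG (t :: (T₁ ++ v :: (U₁ ++ R)))
      (t :: v :: (T₁.map (cj (dd v)⁻¹) ++ (U₁ ++ R))) := by
    have := happ [t] _ _ [] h1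
    simpa using this
  have h3 := hFrt.2.1 t v
  have h4 : LG (t :: v :: (T₁.map (cj (dd v)⁻¹) ++ (U₁ ++ R)))
      ((mg t v).1 :: (mg t v).2 :: (T₁.map (cj (dd v)⁻¹) ++ (U₁ ++ R))) := by
    have := happ [] _ _ (T₁.map (cj (dd v)⁻¹) ++ (U₁ ++ R)) h3.1
    simpa using this
  refine ⟨(mg t v).1, (mg t v).2 :: (T₁.map (cj (dd v)⁻¹) ++ (U₁ ++ R)), ?_, ?_⟩
  · rw [e0]
    exact htrans _ _ _ h2 h4
  · rw [h3.2]
    exact h

theorem thm_Fin : St_Fin := by
  intro hUnq hFrt hCjv hSwp G _ _ M a ha haa hEv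
  obtain ⟨f, hf1, hf2, hf3⟩ := hSwp hFrt M a haa
  obtain ⟨L, hL, ⟨A, B, hBA, hA, hB⟩, A', B', hBA', hA', hB'⟩ :=
    Fin_two (cls M) ⟨M, self_mem M⟩ (fun L => ∃ A B : Subgroup G, B ≤ A ∧
      N1 (lam (L.take a)) (un A) ≤ 1 / 16 ∧ N1 (lam ((L.drop a).take a)) (un B) ≤ 1 / 16)
      f hf1 hf2 (by convert hEv)
  obtain ⟨hf4, c, hf5⟩ := hf3 L hL
  rw [hf4] at hA'
  rw [hf5] at hB'
  have prT := lam_pr (L.take a)
  have prU := lam_pr ((L.drop a).take a)
  -- the subgroup of `U`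
  have e1 : A' = B := (hUnq A' B _ _ prU prU).1 hA' hB
  -- the subgroup of `T`, conjugated
  obtain ⟨B'', hc1, hc2⟩ := (hUnq A' B' (lam (L.take a)) (lam ((L.take a).map (cj c))) prT
    (lam_pr _)).2.2.2 c (fun q => (hCjv c (L.take a)).2 q) hB'
  have e2 : B'' = A := (hUnq B'' A _ _ prT prT).1 hc2 hA
  have e3 : A = B := by
    have h1 : Nat.card A ≤ Nat.card B := by
      rw [← e2, hc1, ← e1]
      exact Nat.card_le_card_of_injective _ (Subgroup.inclusion_injective hBA')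
    exact (Subgroup.eq_of_le_of_card_ge hBA h1).symm
  subst e3
  -- two inverse letters
  obtain ⟨q, hq1, hq2⟩ := (hUnq A A _ _ prU prT).2.2.1 hB hA
  obtain ⟨U', hU', hqU⟩ := lam_pos hq1
  obtain ⟨T', hT', hqT⟩ := lam_pos hq2
  have hLlen : L.length = M.length := len_cls hL
  have hTl : T'.length = a := by
    rw [len_cls hT', List.length_take]
    omega
  have hUl : U'.length = a := by
    rw [len_cls hU', List.length_take, List.length_drop]
    omega
  have hsplit : L = L.take a ++ (L.drop a).take a ++ L.drop (a + a) := by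
    conv_lhs => rw [← List.take_append_drop a L, ← List.take_append_drop a (L.drop a)]
    rw [List.drop_drop, List.append_assoc]
  have h1 : LG L (T' ++ U' ++ L.drop (a + a)) := by
    have h2 := app_cls [] ((L.drop a).take a ++ L.drop (a + a)) hT'
    have h3 := app_cls T' (L.drop (a + a)) hU'
    rw [mem_cls] at h2 h3
    have h4 : LG (L.take a ++ (L.drop a).take a ++ L.drop (a + a))
        (T' ++ (L.drop a).take a ++ L.drop (a + a)) := by
      simpa using h2
    rw [← hsplit] at h4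
    exact lg_trans h4 h3
  obtain ⟨p, L', h2, h3⟩ := Fin_last hFrt T' U' (L.drop (a + a))
    (by rintro rfl; simp at hTl; omega) (by rintro rfl; simp at hUl; omega)
    (by rw [hqU, hqT, mul_inv_cancel])
  exact ⟨p, L', lg_trans (mem_cls.1 hL) (lg_trans h1 h2), h3⟩

end Pool.Agent.PWY
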