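import Pool.Agent.PWY.StA

/-!
# Campaign PWY: the gap in the inequality of Jensen for the entropy (helper30)
-/

set_option autoImplicit false

open scoped BigOperators

namespace Pool.Agent.PWY

open scoped Classical

/-- (Gap) -/
theorem thm_Gap : St_Gap := by
  intro hPin Ω G _ O Λ μ hO hΛ hμ
  have hc : (0 : ℝ) < O.card := by exact_mod_cast hO.card_pos
  have hnn : ∀ g, 0 ≤ μ g := by
    intro g
    have h1 : 0 ≤ (O.card : ℝ) * μ g := by
      rw [← hμ g]
      exact Finset.sum_nonneg fun ω h => (hΛ ω h).nn g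
    exact (mul_nonneg_iff_of_pos_left hc).1 h1
  have hsum : ∑ g, μ g = 1 := by
    have h1 : (O.card : ℝ) * ∑ g, μ g = O.card * 1 := by
      rw [Finset.mul_sum, Finset.sum_congr rfl fun g _ => (hμ g).symm, Finset.sum_comm,
        Finset.sum_congr rfl fun ω h => (hΛ ω h).sum]
      simp
    exact mul_left_cancel₀ hc.ne' h1
  have hz : ∀ ω ∈ O, ∀ g, μ g = 0 → Λ ω g = 0 := by
    intro ω hω g hg
    have h1 := hμ g
    rw [hg, mul_zero] at h1
    exact (Finset.sum_eq_zero_iff_of_nonneg fun ω h => (hΛ ω h).nn g).1 h1 ω hω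
  have hP : Pr μ := ⟨hnn, hsum⟩
  refine ⟨hP, ?_⟩
  have h1 : ∀ ω ∈ O, ∑ g, Λ ω g * (Real.log (Λ ω g) - Real.log (μ g)) =
      - ent (Λ ω) - ∑ g, Λ ω g * Real.log (μ g) := by
    intro ω _
    unfold ent
    rw [← Finset.sum_neg_distrib, ← Finset.sum_sub_distrib]
    refine Finset.sum_congr rfl fun g _ => ?_
    unfold Real.negMulLog
    ring
  have h2 : ∑ ω ∈ O, ∑ g, Λ ω g * Real.log (μ g) = - (O.card * ent μ) := by
    rw [Finset.sum_comm]
    unfold ent
    rw [Finset.mul_sum, ← Finset.sum_neg_distrib]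
    refine Finset.sum_congr rfl fun g _ => ?_
    rw [← Finset.sum_mul, hμ g]
    unfold Real.negMulLog
    ring
  have key : ∑ ω ∈ O, ∑ g, Λ ω g * (Real.log (Λ ω g) - Real.log (μ g)) =
      (O.card : ℝ) * ent μ - ∑ ω ∈ O, ent (Λ ω) := by
    rw [Finset.sum_congr rfl h1, Finset.sum_sub_distrib, Finset.sum_neg_distrib, h2]
    ring
  calc ∑ ω ∈ O, N1 (Λ ω) μ ^ 2
      ≤ ∑ ω ∈ O, 4 * ∑ g, Λ ω g * (Real.log (Λ ω g) - Real.log (μ g)) :=
        Finset.sum_le_sum fun ω h => hPin _ _ (hΛ ω h) hP (hz ω h)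
    _ = 4 * ((O.card : ℝ) * ent μ - ∑ ω ∈ O, ent (Λ ω)) := by rw [← Finset.mul_sum, key]

end Pool.Agent.PWY
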