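import Pool.Agent.PWY.St

/-!
# Campaign PWY: for some `a` most lists are good (`thm_Glo`)

Pigeonhole for the mean entropies, Markov, and the key fact `St_Dis` used twice.
-/

set_option autoImplicit false

open scoped BigOperators

namespace Pool.Agent.PWY

open Pool.Agent.PW Pool.Agent.PWM Pool.Agent.PWB Pool.Agent.PWX Pool.Agent.PWF Pool.Agent.PWL
open scoped Classical

private theorem Glo_take {G : Type} (L : List G) (a : ℕ) : (L.take (a + 1)).take a = L.take a := by
  rw [List.take_take, min_eq_left (Nat.le_succ a)]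

private theorem Glo_lt {G : Type} [Group G] (L : List (G × G)) (a : ℕ) :
    lt a (L.take (a + 1)) = lt a L := by
  unfold lt
  rw [List.getElem?_take, if_pos (Nat.lt_succ_self a)]

private theorem Glo_gd {G : Type} [Group G] [Fintype G] (L : List (G × G)) (a : ℕ) :
    Gd a (L.take (a + 1)) ↔ Gd a L := by
  unfold Gd
  rw [Glo_take, Glo_lt]

/-- Pigeonhole. -/
private theorem Glo_pig (h : ℕ → ℝ) (k : ℕ) (c l : ℝ) (h0 : ∀ j, 0 ≤ h j) (hl : ∀ j, h j ≤ l)
    (hk : 1 ≤ k) (hc : l ≤ k * c) : ∃ a, 1 ≤ a ∧ a ≤ k ∧ h (a + 1) - h a ≤ c := by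
  by_contra hno
  push Not at hno
  have h1 : ∑ i ∈ Finset.range k, c < ∑ i ∈ Finset.range k, (h (i + 1 + 1) - h (i + 1)) := by
    refine Finset.sum_lt_sum_of_nonempty (Finset.nonempty_range_iff.2 (by omega)) fun i hi => ?_
    exact hno (i + 1) (by omega) (by have := Finset.mem_range.1 hi; omega)
  rw [Finset.sum_range_sub (fun i => h (i + 1)), Finset.sum_const, Finset.card_range,
    nsmul_eq_mul] at h1
  have h2 := h0 (0 + 1)
  have h3 := hl (k + 1)
  linarith

/-- Markov. -/
private theorem Glo_mar {Ω : Type} (O : Finset Ω) (g : Ω → ℝ) (hg : ∀ x ∈ O, 0 ≤ g x) (t s : ℝ)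
    (ht : 0 < t) (hs : ∑ x ∈ O, g x ≤ s * t) : ((O.filter fun x => t < g x).card : ℝ) ≤ s := by
  have h1 : ∑ x ∈ O.filter (fun x => t < g x), t ≤ ∑ x ∈ O.filter (fun x => t < g x), g x :=
    Finset.sum_le_sum fun x hx => (Finset.mem_filter.1 hx).2.le
  have h2 : ∑ x ∈ O.filter (fun x => t < g x), g x ≤ ∑ x ∈ O, g x :=
    Finset.sum_le_sum_of_subset_of_nonneg (Finset.filter_subset _ _) fun x hx _ => hg x hx
  rw [Finset.sum_const, nsmul_eq_mul] at h1
  have h3 : ((O.filter fun x => t < g x).card : ℝ) * t ≤ s * t := by linarith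
  exact le_of_mul_le_mul_right h3 ht

theorem thm_Glo : St_Glo := by
  intro hPin hEnt hDis G _ _ M k hk hkM hlog hLoc
  have hn : (0 : ℝ) < ((cls M).card : ℝ) := by exact_mod_cast card_cls_pos M
  have hE := fun L : List (G × G) => hEnt hPin (lam L) (lam_pr L)
  -- the mean entropies
  obtain ⟨a, ha1, hak, hga⟩ := Glo_pig
    (fun j => (∑ L ∈ cls M, ent (lam (L.take j))) / ((cls M).card : ℝ)) k (1 / 2 ^ 37)
    (Real.log (Fintype.card G))
    (fun j => div_nonneg (Finset.sum_nonneg fun L _ => (hE _).1) hn.le)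
    (fun j => by
      rw [div_le_iff₀ hn]
      calc ∑ L ∈ cls M, ent (lam (L.take j)) ≤ ∑ L ∈ cls M, Real.log (Fintype.card G) :=
            Finset.sum_le_sum fun L _ => (hE _).2.1
        _ = Real.log (Fintype.card G) * ((cls M).card : ℝ) := by
            rw [Finset.sum_const, nsmul_eq_mul, mul_comm])
    hk (by rw [mul_one_div]; exact hlog)
  refine ⟨a, ha1, hak, ?_⟩
  have hlen : ∀ L ∈ cls M, (L.take (a + 1)).length = a + 1 := by
    intro L hL
    rw [List.length_take, len_cls hL]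
    omega
  -- the gaps
  have hD1 := hDis M 0 (a + 1) fun _ U _ => ent (lam (U.take a))
  have hD2 := hDis M 0 (a + 1) fun _ U _ => if ¬ Gd a U then (1 : ℝ) else 0
  simp only [List.drop_zero, Glo_take] at hD1
  simp only [List.drop_zero, Glo_gd] at hD2
  have hg0 : ∀ L ∈ cls M, 0 ≤ ent (lam (L.take (a + 1))) -
      (∑ U ∈ cls (L.take (a + 1)), ent (lam (U.take a))) / ((cls (L.take (a + 1))).card : ℝ) := by
    intro L hL
    have hc : (0 : ℝ) < ((cls (L.take (a + 1))).card : ℝ) := by exact_mod_cast card_cls_pos _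
    have h1 := (hLoc (L.take (a + 1)) a ha1 (hlen L hL)).1
    rw [sub_nonneg, div_le_iff₀ hc, mul_comm]
    exact h1
  have hsum : ∑ L ∈ cls M, (ent (lam (L.take (a + 1))) -
      (∑ U ∈ cls (L.take (a + 1)), ent (lam (U.take a))) / ((cls (L.take (a + 1))).card : ℝ)) ≤
      (((cls M).card : ℝ) / 32) * (1 / 2 ^ 32) := by
    rw [Finset.sum_sub_distrib, ← hD1]
    have h2 : (∑ L ∈ cls M, ent (lam (L.take (a + 1))) - ∑ L ∈ cls M, ent (lam (L.take a))) /
        ((cls M).card : ℝ) ≤ 1 / 2 ^ 37 := by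
      rw [sub_div]
      exact hga
    rw [div_le_iff₀ hn] at h2
    refine h2.trans (le_of_eq ?_)
    ring
  have hmar := Glo_mar (cls M) _ hg0 (1 / 2 ^ 32) _ (by positivity) hsum
  -- the count
  have hcnt : (((cls M).filter fun L => ¬ Gd a L).card : ℝ) =
      ∑ L ∈ cls M, (if ¬ Gd a L then (1 : ℝ) else 0) := by
    rw [Finset.sum_ite, Finset.sum_const_zero, add_zero, Finset.sum_const, nsmul_eq_mul, mul_one]
  rw [hcnt, hD2]
  have hterm : ∀ L ∈ cls M, (∑ U ∈ cls (L.take (a + 1)), (if ¬ Gd a U then (1 : ℝ) else 0)) /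
      ((cls (L.take (a + 1))).card : ℝ) ≤
      (if 1 / 2 ^ 32 < ent (lam (L.take (a + 1))) -
        (∑ U ∈ cls (L.take (a + 1)), ent (lam (U.take a))) / ((cls (L.take (a + 1))).card : ℝ)
        then (1 : ℝ) else 0) + 1 / 16 := by
    intro L hL
    have hc : (0 : ℝ) < ((cls (L.take (a + 1))).card : ℝ) := by exact_mod_cast card_cls_pos _
    have hs : ∑ U ∈ cls (L.take (a + 1)), (if ¬ Gd a U then (1 : ℝ) else 0) =
        (((cls (L.take (a + 1))).filter fun L => ¬ Gd a L).card : ℝ) := by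
      rw [Finset.sum_ite, Finset.sum_const_zero, add_zero, Finset.sum_const, nsmul_eq_mul, mul_one]
    rw [hs, div_le_iff₀ hc]
    by_cases hgap : 1 / 2 ^ 32 < ent (lam (L.take (a + 1))) -
        (∑ U ∈ cls (L.take (a + 1)), ent (lam (U.take a))) / ((cls (L.take (a + 1))).card : ℝ)
    · rw [if_pos hgap]
      have h1 : (((cls (L.take (a + 1))).filter fun L => ¬ Gd a L).card : ℝ) ≤
          ((cls (L.take (a + 1))).card : ℝ) := by
        exact_mod_cast Finset.card_filter_le _ _
      linarith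
    · rw [if_neg hgap, zero_add]
      refine (hLoc (L.take (a + 1)) a ha1 (hlen L hL)).2 ?_
      rw [not_lt, sub_le_iff_le_add] at hgap
      have h2 := mul_le_mul_of_nonneg_left hgap hc.le
      rw [mul_add, mul_div_cancel₀ _ hc.ne'] at h2
      linarith
  refine (Finset.sum_le_sum hterm).trans ?_
  rw [Finset.sum_add_distrib, Finset.sum_const, nsmul_eq_mul]
  have hcnt2 : ∑ L ∈ cls M, (if 1 / 2 ^ 32 < ent (lam (L.take (a + 1))) -
        (∑ U ∈ cls (L.take (a + 1)), ent (lam (U.take a))) / ((cls (L.take (a + 1))).card : ℝ)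
        then (1 : ℝ) else 0) = (((cls M).filter fun L => 1 / 2 ^ 32 < ent (lam (L.take (a + 1))) -
        (∑ U ∈ cls (L.take (a + 1)), ent (lam (U.take a))) /
          ((cls (L.take (a + 1))).card : ℝ)).card : ℝ) := by
    rw [Finset.sum_ite, Finset.sum_const_zero, add_zero, Finset.sum_const, nsmul_eq_mul, mul_one]
  rw [hcnt2]
  linarith

end Pool.Agent.PWY
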