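import Pool.Agent.PWY.St

/-!
# Campaign PWY: a curve in the kernel, and handles (assembly from the statements)
-/

set_option autoImplicit false

open scoped BigOperators

namespace Pool.Agent.PWY

open Pool.Agent.PW Pool.Agent.PWM Pool.Agent.PWB Pool.Agent.PWX Pool.Agent.PWF Pool.Agent.PWL
open scoped Classical

theorem thm_Hlg (hPin : St_Pin) (hGap : St_Gap) (hEnt : St_Ent) (hSub : St_Sub) (hUnq : St_Unq)
    (hDis : St_Dis) (hLet : St_Let) (hAvg : St_Avg) (hLoc : St_Loc) (hGlo : St_Glo)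
    (hCjv : St_Cjv) (hSwp : St_Swp) (hTwo : St_Two) (hFin : St_Fin) : St_Hlg := by
  intro G _ _ M hM
  have : Fintype G := Fintype.ofFinite G
  have hcard : Nat.card G = Fintype.card G := Nat.card_eq_fintype_card
  have hFrt : St_Frt := thm_Frt
  obtain ⟨n, hn⟩ : ∃ n, n = Nat.log 2 (Nat.card G) + 1 := ⟨_, rfl⟩
  rw [← hn] at hM
  have hn1 : 1 ≤ n := by omega
  have hlog : Real.log (Fintype.card G) ≤ n := by
    have h1 : Fintype.card G ≤ 2 ^ n := by
      rw [← hcard, hn]
      exact (Nat.lt_pow_succ_log_self (by norm_num) _).le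
    have h0 : (0 : ℝ) < Fintype.card G := by
      have := Fintype.card_pos (α := G)
      exact_mod_cast this
    have h2 : Real.log (Fintype.card G) ≤ Real.log ((2 : ℝ) ^ n) := by
      apply Real.log_le_log h0
      exact_mod_cast h1
    rw [Real.log_pow] at h2
    have h3 : Real.log 2 ≤ 1 := by
      have := Real.log_two_lt_d9
      linarith
    have h4 : (n : ℝ) * Real.log 2 ≤ n * 1 := mul_le_mul_of_nonneg_left h3 (Nat.cast_nonneg n)
    linarith
  obtain ⟨k, hk⟩ : ∃ k, k = M.length / 2 := ⟨_, rfl⟩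
  have hk2 : 2 ^ 37 * n ≤ k := by omega
  have hk3 : k + k ≤ M.length := by omega
  have hkn : Real.log (Fintype.card G) ≤ k / 2 ^ 37 := by
    refine hlog.trans ?_
    rw [le_div_iff₀ (by positivity)]
    have : ((2 ^ 37 * n : ℕ) : ℝ) ≤ k := by exact_mod_cast hk2
    push_cast at this
    linarith
  obtain ⟨a, ha1, hak, ha⟩ := hGlo hPin hEnt hDis M k (by omega) (by omega) hkn
    (fun N a h1 h2 => hLoc hPin hGap hEnt hSub hFrt hDis hLet hAvg N a h1 h2)
  have haa : a + a ≤ M.length := by omega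
  exact hFin hUnq hFrt hCjv hSwp M a ha1 haa (hTwo hUnq hFrt hDis hSwp M a ha1 haa ha)

theorem thm_Aly (hH : St_Hlg) : St_Aly := by
  intro Q _ _ h hh ρ
  obtain ⟨n, hn⟩ : ∃ n, n = Nat.log 2 (Nat.card Q) + 1 := ⟨_, rfl⟩
  have hn1 : 1 ≤ n := by omega
  rw [← hn] at hh
  have hlen : (lst ρ 0 h).length = h := by simp [lst]
  obtain ⟨L', hL'⟩ := thm_Ded thm_Frt (G := Q) (2 ^ 38 * n) (fun L hL => hH L (by
    rw [← hn]
    exact hL)) (lst ρ 0 h) (by
    rw [hlen]
    omega)
  obtain ⟨φ, hφ, h1, -⟩ := PWH.bRea ρ ((1, 1) :: L') (show 0 + h ≤ h by omega) hL'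
  have h0 : 0 < h := by omega
  have h2 : vls (ρ.comp (MulEquiv.toMonoidHom φ)) 0 = (1, 1) := by
    have e3 : (lst (ρ.comp (MulEquiv.toMonoidHom φ)) 0 h)[0]? = some (1, 1) := by
      rw [h1]
      rfl
    unfold lst at e3
    rw [List.getElem?_map, List.getElem?_range h0] at e3
    simpa using e3
  unfold vls at h2
  rw [dif_pos h0] at h2
  exact ⟨φ, hφ, h0, congrArg Prod.fst h2, congrArg Prod.snd h2⟩

end Pool.Agent.PWY
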