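import Pool.Agent.PWY.St

/-!
# Campaign PWY: module Loc, a class with a small gap of the entropy
-/

set_option autoImplicit false

open scoped BigOperators

namespace Pool.Agent.PWY

open Pool.Agent.PW Pool.Agent.PWM Pool.Agent.PWB Pool.Agent.PWX Pool.Agent.PWF Pool.Agent.PWL
open scoped Classical

namespace Loc

theorem n1_tri {G : Type} [Fintype G] (a b c : G → ℝ) : N1 a c ≤ N1 a b + N1 b c := by
  unfold N1
  rw [← Finset.sum_add_distrib]
  exact Finset.sum_le_sum fun g _ => abs_sub_le _ _ _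

theorem n1_comm {G : Type} [Fintype G] (a b : G → ℝ) : N1 a b = N1 b a := by
  unfold N1
  exact Finset.sum_congr rfl fun g _ => abs_sub_comm _ _

theorem n1_nn {G : Type} [Fintype G] (a b : G → ℝ) : 0 ≤ N1 a b := by
  unfold N1
  exact Finset.sum_nonneg fun g _ => abs_nonneg _

/-- Cauchy-Schwarz. -/
theorem cs {Ω : Type} (O : Finset Ω) (f : Ω → ℝ) (r : ℝ) (hr : 0 ≤ r)
    (h : ∑ ω ∈ O, f ω ^ 2 ≤ r ^ 2 * O.card) : ∑ ω ∈ O, f ω ≤ r * O.card := by
  have h1 : (∑ ω ∈ O, f ω) ^ 2 ≤ (O.card : ℝ) * ∑ ω ∈ O, f ω ^ 2 := sq_sum_le_card_mul_sum_sq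
  have h2 : (∑ ω ∈ O, f ω) ^ 2 ≤ (r * O.card) ^ 2 := by
    refine h1.trans ?_
    have h3 : (0 : ℝ) ≤ O.card := by positivity
    nlinarith [mul_le_mul_of_nonneg_left h h3]
  exact abs_le_of_sq_le_sq h2 (by positivity) |>.trans' (le_abs_self _)

/-- Markov. -/
theorem mk {Ω : Type} (O : Finset Ω) (f : Ω → ℝ) (r s : ℝ)
    (h0 : ∀ ω ∈ O, 0 ≤ f ω) (h : ∑ ω ∈ O, f ω ≤ r) :
    s * ((O.filter fun ω => s < f ω).card : ℝ) ≤ r := by
  calc s * ((O.filter fun ω => s < f ω).card : ℝ) = ∑ ω ∈ O.filter (fun ω => s < f ω), s := by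
        rw [Finset.sum_const, nsmul_eq_mul, mul_comm]
    _ ≤ ∑ ω ∈ O.filter (fun ω => s < f ω), f ω :=
        Finset.sum_le_sum fun ω h => (Finset.mem_filter.1 h).2.le
    _ ≤ ∑ ω ∈ O, f ω :=
        Finset.sum_le_sum_of_subset_of_nonneg (Finset.filter_subset _ _) fun ω h _ => h0 ω h
    _ ≤ r := h

end Loc

open Loc

theorem thm_Loc : St_Loc := by
  intro hPin hGap hEnt hSub hFrt hDis hLet hAvg G _ _ M a ha hM
  obtain ⟨A1, A2, A3⟩ := hAvg hFrt hDis hLet M a ha hM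
  have hn : (0 : ℝ) < ((cls M).card : ℝ) := by exact_mod_cast card_cls_pos M
  have hne : (cls M).Nonempty := ⟨M, self_mem M⟩
  have g1 := hGap hPin (cls M) (fun L => lam (L.take a)) (lam M) hne
    (fun L _ => lam_pr _) A1
  have g2 := hGap hPin (cls M) (fun L => tr (lt a L) (lam (L.take a))) (lam M) hne
    (fun L _ => ((hEnt hPin (lam (L.take a)) (lam_pr _)).2.2 (lt a L)).1) A2
  have hse : ∑ L ∈ cls M, ent (tr (lt a L) (lam (L.take a))) = ∑ L ∈ cls M, ent (lam (L.take a)) :=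
    Finset.sum_congr rfl fun L _ => ((hEnt hPin (lam (L.take a)) (lam_pr _)).2.2 (lt a L)).2.1
  rw [hse] at g2
  have g1' := g1.2
  have g2' := g2.2
  refine ⟨?_, ?_⟩
  · have h0 : (0 : ℝ) ≤ ∑ L ∈ cls M, N1 (lam (L.take a)) (lam M) ^ 2 :=
      Finset.sum_nonneg fun _ _ => sq_nonneg _
    linarith
  intro hgap
  have s1 : ∑ L ∈ cls M, N1 (lam (L.take a)) (lam M) ≤ 1 / 2 ^ 15 * ((cls M).card : ℝ) := by
    refine cs _ _ _ (by norm_num) (g1'.trans ?_)
    calc 4 * (((cls M).card : ℝ) * ent (lam M) - ∑ L ∈ cls M, ent (lam (L.take a)))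
        ≤ 4 * (1 / 2 ^ 32 * ((cls M).card : ℝ)) := by linarith
      _ = (1 / 2 ^ 15) ^ 2 * ((cls M).card : ℝ) := by ring
  have s2 : ∑ L ∈ cls M, N1 (tr (lt a L) (lam (L.take a))) (lam M) ≤
      1 / 2 ^ 15 * ((cls M).card : ℝ) := by
    refine cs _ _ _ (by norm_num) (g2'.trans ?_)
    calc 4 * (((cls M).card : ℝ) * ent (lam M) - ∑ L ∈ cls M, ent (lam (L.take a)))
        ≤ 4 * (1 / 2 ^ 32 * ((cls M).card : ℝ)) := by linarith
      _ = (1 / 2 ^ 15) ^ 2 * ((cls M).card : ℝ) := by ring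
  have s3 : ∑ L ∈ cls M, N1 (tr (lt a L) (lam M)) (lam M) ≤ 1 / 2 ^ 14 * ((cls M).card : ℝ) := by
    calc ∑ L ∈ cls M, N1 (tr (lt a L) (lam M)) (lam M)
        ≤ ∑ L ∈ cls M, (N1 (lam (L.take a)) (lam M) +
            N1 (tr (lt a L) (lam (L.take a))) (lam M)) := by
          refine Finset.sum_le_sum fun L _ => ?_
          have e1 := ((hEnt hPin (lam M) (lam_pr _)).2.2 (lt a L)).2.2 (lam (L.take a))
          have e2 := n1_tri (tr (lt a L) (lam M)) (tr (lt a L) (lam (L.take a))) (lam M)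
          rw [e1, n1_comm (lam M) (lam (L.take a))] at e2
          exact e2
      _ = _ := Finset.sum_add_distrib
      _ ≤ 1 / 2 ^ 15 * ((cls M).card : ℝ) + 1 / 2 ^ 15 * ((cls M).card : ℝ) := add_le_add s1 s2
      _ = 1 / 2 ^ 14 * ((cls M).card : ℝ) := by ring
  have s4 : ∑ x, lam M x * N1 (tr x (lam M)) (lam M) ≤ (1 / 2 ^ 7) ^ 2 := by
    have e1 := A3 fun x => N1 (tr x (lam M)) (lam M)
    rw [e1] at s3
    have e2 : ((cls M).card : ℝ) * ∑ x, lam M x * N1 (tr x (lam M)) (lam M) ≤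
        ((cls M).card : ℝ) * (1 / 2 ^ 7) ^ 2 := by
      refine s3.trans (le_of_eq ?_)
      ring
    exact le_of_mul_le_mul_left e2 hn
  obtain ⟨A, hA⟩ := hSub (lam M) (lam_pr M) (1 / 2 ^ 7) (by norm_num) (by norm_num) s4
  have hA' : N1 (lam M) (un A) ≤ 1 / 32 := hA.trans (by norm_num)
  -- the lists with a far law
  have m1 := mk (cls M) (fun L => N1 (lam (L.take a)) (lam M)) _ (1 / 32)
    (fun L _ => n1_nn _ _) s1
  -- the lists with a letter outside of `A`
  have m2 : (((cls M).filter fun L => lt a L ∉ A).card : ℝ) ≤ 1 / 32 * ((cls M).card : ℝ) := by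
    have e1 := A3 fun x => if x ∈ A then 0 else 1
    have e2 : (((cls M).filter fun L => lt a L ∉ A).card : ℝ) =
        ∑ L ∈ cls M, (if lt a L ∈ A then (0 : ℝ) else 1) := by
      rw [Finset.card_filter]
      push_cast
      refine Finset.sum_congr rfl fun L _ => ?_
      by_cases h : lt a L ∈ A <;> simp [h]
    rw [e2, e1, mul_comm]
    refine mul_le_mul_of_nonneg_right ?_ hn.le
    refine le_trans ?_ hA'
    unfold N1
    refine Finset.sum_le_sum fun g _ => ?_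
    by_cases h : g ∈ A
    · simp [h]
    · simp only [h, if_false, mul_one, un, sub_zero]
      exact le_abs_self _
  have hsub : ((cls M).filter fun L => ¬ Gd a L) ⊆
      ((cls M).filter fun L => 1 / 32 < N1 (lam (L.take a)) (lam M)) ∪
        ((cls M).filter fun L => lt a L ∉ A) := by
    intro L hL
    rw [Finset.mem_filter] at hL
    rw [Finset.mem_union, Finset.mem_filter, Finset.mem_filter]
    by_contra hc
    rw [not_or] at hc
    have c1 : N1 (lam (L.take a)) (lam M) ≤ 1 / 32 := by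
      by_contra h
      exact hc.1 ⟨hL.1, not_le.1 h⟩
    have c2 : lt a L ∈ A := by
      by_contra h
      exact hc.2 ⟨hL.1, h⟩
    refine hL.2 ⟨A, ?_, c2⟩
    have := n1_tri (lam (L.take a)) (lam M) (un A)
    linarith
  have hcard : (((cls M).filter fun L => ¬ Gd a L).card : ℝ) ≤
      (((cls M).filter fun L => 1 / 32 < N1 (lam (L.take a)) (lam M)).card : ℝ) +
        (((cls M).filter fun L => lt a L ∉ A).card : ℝ) := by
    exact_mod_cast (Finset.card_le_card hsub).trans (Finset.card_union_le _ _)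
  have m3 : (((cls M).filter fun L => 1 / 32 < N1 (lam (L.take a)) (lam M)).card : ℝ) ≤
      1 / 2 ^ 10 * ((cls M).card : ℝ) := by
    have : (1 / 32 : ℝ) * (((cls M).filter fun L => 1 / 32 < N1 (lam (L.take a)) (lam M)).card : ℝ) ≤
      1 / 2 ^ 15 * ((cls M).card : ℝ) := m1
    have h2 : (1 / 2 ^ 15 : ℝ) * ((cls M).card : ℝ) =
      1 / 32 * (1 / 2 ^ 10 * ((cls M).card : ℝ)) := by ring
    rw [h2] at this
    exact le_of_mul_le_mul_left this (by norm_num)
  have h5 : (1 / 2 ^ 10 : ℝ) * ((cls M).card : ℝ) ≤ 1 / 32 * ((cls M).card : ℝ) :=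
    mul_le_mul_of_nonneg_right (by norm_num) hn.le
  linarith

end Pool.Agent.PWY
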