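import Pool.Agent.PWY.StA

/-!
# Campaign PWY, module Sub: a law which is nearly invariant under its own elements
-/

set_option autoImplicit false
set_option linter.unusedSectionVars false

open scoped BigOperators

namespace Pool.Agent.PWY

open scoped Classical

section

variable {G : Type} [Group G] [Fintype G]

private theorem Sub_tri (a b c : G → ℝ) : N1 a c ≤ N1 a b + N1 b c := by
  unfold N1
  rw [← Finset.sum_add_distrib]
  exact Finset.sum_le_sum fun g _ => abs_sub_le _ _ _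

private theorem Sub_comm (a b : G → ℝ) : N1 a b = N1 b a := by
  unfold N1
  exact Finset.sum_congr rfl fun g _ => abs_sub_comm _ _

private theorem Sub_tr (x : G) (a b : G → ℝ) : N1 (tr x a) (tr x b) = N1 a b := by
  unfold N1 tr
  exact Fintype.sum_equiv (Equiv.mulLeft x⁻¹) _ _ fun g => rfl

private theorem Sub_mul (x y : G) (a : G → ℝ) : tr (x * y) a = tr x (tr y a) := by
  funext g
  simp [tr, mul_assoc]

private theorem Sub_one (a : G → ℝ) : tr (1 : G) a = a := by
  funext g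
  simp [tr]

private theorem Sub_self (a : G → ℝ) : N1 a a = 0 := by
  simp [N1]

private theorem Sub_prod (a : G → ℝ) (x y : G) :
    N1 (tr (x * y) a) a ≤ N1 (tr x a) a + N1 (tr y a) a := by
  have h1 := Sub_tri (tr (x * y) a) (tr x a) a
  rw [Sub_mul, Sub_tr] at h1
  rw [Sub_mul]
  linarith

private theorem Sub_inv (a : G → ℝ) (x : G) : N1 (tr x⁻¹ a) a = N1 (tr x a) a := by
  rw [← Sub_tr x (tr x⁻¹ a) a, ← Sub_mul, mul_inv_cancel, Sub_one, Sub_comm]

private theorem Sub_nn (a b : G → ℝ) : 0 ≤ N1 a b := Finset.sum_nonneg fun _ _ => abs_nonneg _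

/-- The mass of a set. -/
private noncomputable def mass (μ : G → ℝ) (S : Finset G) : ℝ := ∑ g ∈ S, μ g

private theorem Sub_markov (μ : G → ℝ) (hμ : Pr μ) (s : ℝ) (hs : 0 < s)
    (h : ∑ x, μ x * N1 (tr x μ) μ ≤ s ^ 2) :
    1 - s ≤ mass μ (Finset.univ.filter fun x => N1 (tr x μ) μ ≤ s) := by
  have h1 : ∑ x ∈ Finset.univ.filter (fun x => ¬ N1 (tr x μ) μ ≤ s), μ x * s ≤ s ^ 2 := by
    refine le_trans ?_ h
    refine le_trans (Finset.sum_le_sum fun x hx => ?_)
      (Finset.sum_le_sum_of_subset_of_nonneg (Finset.filter_subset _ _)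
        fun x _ _ => mul_nonneg (hμ.nn x) (Sub_nn _ _))
    exact mul_le_mul_of_nonneg_left (not_le.1 (Finset.mem_filter.1 hx).2).le (hμ.nn x)
  rw [← Finset.sum_mul] at h1
  have h2 : ∑ x ∈ Finset.univ.filter (fun x => ¬ N1 (tr x μ) μ ≤ s), μ x ≤ s := by
    by_contra hc
    have hc' := not_le.1 hc
    nlinarith
  have h3 := Finset.sum_filter_add_sum_filter_not Finset.univ
    (fun x => N1 (tr x μ) μ ≤ s) μ
  rw [hμ.sum] at h3
  unfold mass
  linarith

theorem thm_Sub : St_Sub := by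
  intro G _ _ μ hμ s hs hs7 h
  have hm := Sub_markov μ hμ s hs h
  obtain ⟨S, hS⟩ : ∃ S, S = Finset.univ.filter fun x => N1 (tr x μ) μ ≤ s := ⟨_, rfl⟩
  rw [← hS] at hm
  have memS : ∀ x, x ∈ S ↔ N1 (tr x μ) μ ≤ s := fun x => by rw [hS]; simp
  -- (*) closedness
  have key : ∀ q, N1 (tr q μ) μ ≤ 4 * s → N1 (tr q μ) μ ≤ 2 * s := by
    intro q hq
    -- mass of the translate
    have h1 : mass μ S - 4 * s ≤ mass (tr q μ) S := by
      have h2 : mass μ S - mass (tr q μ) S ≤ N1 (tr q μ) μ := by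
        unfold mass N1
        rw [← Finset.sum_sub_distrib]
        refine le_trans (Finset.sum_le_sum fun g _ => ?_)
          (Finset.sum_le_sum_of_subset_of_nonneg (Finset.subset_univ S)
            fun g _ _ => abs_nonneg (tr q μ g - μ g))
        rw [abs_sub_comm]
        exact le_abs_self _
      linarith
    have h3 : mass (tr q μ) S = mass μ (S.image fun g => q⁻¹ * g) := by
      unfold mass
      rw [Finset.sum_image fun x _ y _ hxy => mul_left_cancel hxy]
      rfl
    have h4 : ∃ t, t ∈ S ∧ t ∈ S.image fun g => q⁻¹ * g := by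
      by_contra hc
      push Not at hc
      have h5 : Disjoint S (S.image fun g => q⁻¹ * g) := Finset.disjoint_left.2 fun t ht => hc t ht
      have h6 : mass μ S + mass μ (S.image fun g => q⁻¹ * g) ≤ 1 := by
        unfold mass
        rw [← Finset.sum_union h5, ← hμ.sum]
        exact Finset.sum_le_sum_of_subset_of_nonneg (Finset.subset_univ _) fun g _ _ => hμ.nn g
      rw [← h3] at h6
      linarith
    obtain ⟨t, ht1, ht2⟩ := h4
    obtain ⟨u, hu1, hu2⟩ := Finset.mem_image.1 ht2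
    have e1 : q = u * t⁻¹ := by
      rw [← hu2]
      group
    rw [e1]
    have h7 := Sub_prod μ u t⁻¹
    rw [Sub_inv] at h7
    have h8 := (memS u).1 hu1
    have h9 := (memS t).1 ht1
    linarith
  let A : Subgroup G :=
    { carrier := {q | N1 (tr q μ) μ ≤ 2 * s}
      mul_mem' := fun {a b} ha hb => key _ (by
        have h1 := Sub_prod μ a b
        have h2 : N1 (tr a μ) μ ≤ 2 * s := ha
        have h3 : N1 (tr b μ) μ ≤ 2 * s := hb
        linarith)
      one_mem' := by
        show N1 (tr 1 μ) μ ≤ 2 * s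
        rw [Sub_one, Sub_self]
        linarith
      inv_mem' := fun {a} ha => by
        show N1 (tr a⁻¹ μ) μ ≤ 2 * s
        rw [Sub_inv]
        exact ha }
  have memA : ∀ q, q ∈ A ↔ N1 (tr q μ) μ ≤ 2 * s := fun q => Iff.rfl
  refine ⟨A, ?_⟩
  -- the average over `A`
  obtain ⟨F, hF⟩ : ∃ F : Finset G, F = Finset.univ.filter fun g => g ∈ A := ⟨_, rfl⟩
  have memF : ∀ g, g ∈ F ↔ g ∈ A := fun g => by rw [hF]; simp
  have cardF : (F.card : ℝ) = Nat.card A := by
    rw [hF, Nat.card_eq_fintype_card, Fintype.card_subtype]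
  have hc0 : (0 : ℝ) < F.card := by
    have : F.Nonempty := ⟨1, (memF 1).2 A.one_mem⟩
    exact_mod_cast Finset.card_pos.2 this
  let ν : G → ℝ := fun g => (F.card : ℝ)⁻¹ * ∑ a ∈ F, tr a μ g
  have h1 : N1 μ ν ≤ 2 * s := by
    have h2 : ∀ g, |μ g - ν g| ≤ (F.card : ℝ)⁻¹ * ∑ a ∈ F, |tr a μ g - μ g| := by
      intro g
      have e1 : μ g - ν g = (F.card : ℝ)⁻¹ * ∑ a ∈ F, (μ g - tr a μ g) := by
        rw [Finset.sum_sub_distrib, Finset.sum_const, nsmul_eq_mul, mul_sub,
          inv_mul_cancel_left₀ hc0.ne']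
      rw [e1, abs_mul, abs_of_pos (inv_pos.2 hc0)]
      refine mul_le_mul_of_nonneg_left ?_ (inv_pos.2 hc0).le
      refine (Finset.abs_sum_le_sum_abs _ _).trans (Finset.sum_le_sum fun a _ => ?_)
      rw [abs_sub_comm]
    have h3 : N1 μ ν ≤ ∑ g, (F.card : ℝ)⁻¹ * ∑ a ∈ F, |tr a μ g - μ g| :=
      Finset.sum_le_sum fun g _ => h2 g
    rw [← Finset.mul_sum, Finset.sum_comm] at h3
    refine h3.trans ?_
    have h4 : ∑ a ∈ F, ∑ g, |tr a μ g - μ g| ≤ ∑ a ∈ F, 2 * s :=
      Finset.sum_le_sum fun a ha => (memA a).1 ((memF a).1 ha)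
    rw [Finset.sum_const, nsmul_eq_mul] at h4
    calc (F.card : ℝ)⁻¹ * ∑ a ∈ F, ∑ g, |tr a μ g - μ g|
        ≤ (F.card : ℝ)⁻¹ * ((F.card : ℝ) * (2 * s)) :=
          mul_le_mul_of_nonneg_left h4 (inv_pos.2 hc0).le
      _ = 2 * s := inv_mul_cancel_left₀ hc0.ne' _
  -- the mass of `A`
  have hSA : S ⊆ F := fun g hg => (memF g).2 ((memA g).2 (((memS g).1 hg).trans (by linarith)))
  have hmA : 1 - s ≤ mass μ F :=
    hm.trans (Finset.sum_le_sum_of_subset_of_nonneg hSA fun g _ _ => hμ.nn g)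
  have hmA1 : mass μ F ≤ 1 := by
    rw [← hμ.sum]
    exact Finset.sum_le_sum_of_subset_of_nonneg (Finset.subset_univ _) fun g _ _ => hμ.nn g
  -- the sum of `μ (a⁻¹ g)` over `a ∈ A`
  have hin : ∀ g ∈ F, ν g = (F.card : ℝ)⁻¹ * mass μ F := by
    intro g hg
    show (F.card : ℝ)⁻¹ * ∑ a ∈ F, μ (a⁻¹ * g) = _
    congr 1
    refine Finset.sum_nbij' (fun a => a⁻¹ * g) (fun b => g * b⁻¹) ?_ ?_ ?_ ?_ ?_
    · exact fun a ha => (memF _).2 (A.mul_mem (A.inv_mem ((memF a).1 ha)) ((memF g).1 hg))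
    · exact fun b hb => (memF _).2 (A.mul_mem ((memF g).1 hg) (A.inv_mem ((memF b).1 hb)))
    · intro a _
      simp
    · intro b _
      simp
    · intro a _
      rfl
  have hout : ∑ g ∈ Finset.univ.filter (fun g => g ∉ F), ν g = 1 - mass μ F := by
    have h2 : ∑ g, ν g = 1 := by
      show ∑ g, (F.card : ℝ)⁻¹ * ∑ a ∈ F, tr a μ g = 1
      rw [← Finset.mul_sum, Finset.sum_comm]
      have h3 : ∀ a ∈ F, ∑ g, tr a μ g = 1 := by
        intro a _
        rw [← hμ.sum]
        exact Fintype.sum_equiv (Equiv.mulLeft a⁻¹) _ _ fun g => rfl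
      rw [Finset.sum_congr rfl h3, Finset.sum_const, nsmul_eq_mul, mul_one,
        inv_mul_cancel₀ hc0.ne']
    have h4 := Finset.sum_filter_add_sum_filter_not Finset.univ (fun g => g ∈ F) ν
    have h5 : ∑ g ∈ Finset.univ.filter (fun g => g ∈ F), ν g = mass μ F := by
      have e : Finset.univ.filter (fun g => g ∈ F) = F := by
        ext g
        simp
      rw [e, Finset.sum_congr rfl hin, Finset.sum_const, nsmul_eq_mul,
        mul_inv_cancel_left₀ hc0.ne']
    rw [h5, h2] at h4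
    linarith
  have hνnn : ∀ g, 0 ≤ ν g := fun g =>
    mul_nonneg (inv_pos.2 hc0).le (Finset.sum_nonneg fun a _ => hμ.nn _)
  have h2 : N1 ν (un A) ≤ 2 * s := by
    unfold N1
    rw [← Finset.sum_filter_add_sum_filter_not Finset.univ (fun g => g ∈ F)]
    have h3 : ∑ g ∈ Finset.univ.filter (fun g => g ∈ F), |ν g - un A g| = 1 - mass μ F := by
      have e : Finset.univ.filter (fun g => g ∈ F) = F := by
        ext g
        simp
      have h4 : ∀ g ∈ F, |ν g - un A g| = (F.card : ℝ)⁻¹ * (1 - mass μ F) := by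
        intro g hg
        have h5 : un A g = (F.card : ℝ)⁻¹ := by
          unfold un
          rw [if_pos ((memF g).1 hg), cardF]
        rw [hin g hg, h5]
        have h6 : (F.card : ℝ)⁻¹ * mass μ F - (F.card : ℝ)⁻¹ =
            -((F.card : ℝ)⁻¹ * (1 - mass μ F)) := by ring
        rw [h6, abs_neg, abs_of_nonneg (mul_nonneg (inv_pos.2 hc0).le (by linarith))]
      rw [e, Finset.sum_congr rfl h4, Finset.sum_const, nsmul_eq_mul,
        mul_inv_cancel_left₀ hc0.ne']
    have h4 : ∑ g ∈ Finset.univ.filter (fun g => g ∉ F), |ν g - un A g| = 1 - mass μ F := by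
      rw [← hout]
      refine Finset.sum_congr rfl fun g hg => ?_
      have h5 : un A g = 0 := by
        unfold un
        rw [if_neg fun h => (Finset.mem_filter.1 hg).2 ((memF g).2 h)]
      rw [h5, sub_zero, abs_of_nonneg (hνnn g)]
    rw [h3, h4]
    linarith
  have h3 := Sub_tri μ ν (un A)
  linarith

end

end Pool.Agent.PWY
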