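import Pool.Agent.PWY.St

/-!
# Campaign PWY, module Swp: exchange of two neighbouring blocks

The proof follows the docstring of `St_Swp`.
-/

set_option autoImplicit false

open scoped BigOperators

namespace Pool.Agent.PWY

open Pool.Agent.PW Pool.Agent.PWM Pool.Agent.PWB Pool.Agent.PWX Pool.Agent.PWF Pool.Agent.PWL
open scoped Classical

variable {G : Type} [Group G]

private theorem swp_cj_one (p : G × G) : cj (1 : G) p = p := by
  simp [cj]

private theorem swp_cj_mul (x y : G) (p : G × G) : cj x (cj y p) = cj (x * y) p := by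
  simp [cj, mul_assoc]

private theorem swp_cj_inj (c : G) : Function.Injective (cj c) := by
  intro p q h
  have h1 : cj c⁻¹ (cj c p) = cj c⁻¹ (cj c q) := by rw [h]
  rwa [swp_cj_mul, swp_cj_mul, inv_mul_cancel, swp_cj_one, swp_cj_one] at h1

private theorem swp_ctx (p : G × G) {S S' : List (G × G)} (h : LG S S') :
    LG (p :: S) (p :: S') := by
  have h1 := PWH.bBas.2.2.2.1 [p] S S' [] h
  simpa only [List.append_nil, List.cons_append, List.nil_append] using h1

private theorem swp_lg (hF : St_Frt) (R : List (G × G)) : ∀ U T : List (G × G),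
    LG (T ++ U ++ R) (U ++ T.map (cj (Dp U)⁻¹) ++ R) := by
  intro U
  induction U with
  | nil =>
    intro T
    have h1 : T.map (cj (Dp ([] : List (G × G)))⁻¹) = T := by
      have h2 : (cj (Dp ([] : List (G × G)))⁻¹ : G × G → G × G) = id := by
        funext p
        simp [Dp, swp_cj_one]
      rw [h2, List.map_id]
    rw [h1, List.append_nil, List.nil_append]
    exact PWH.bBas.1 _
  | cons u U ih =>
    intro T
    have h1 := hF.1 T (U ++ R) u
    have h2 := swp_ctx u (ih (T.map (cj (dd u)⁻¹)))
    have h3 : (T.map (cj (dd u)⁻¹)).map (cj (Dp U)⁻¹) = T.map (cj (Dp (u :: U))⁻¹) := by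
      rw [List.map_map]
      refine List.map_congr_left fun p _ => ?_
      rw [Function.comp_apply, swp_cj_mul]
      congr 1
      simp [Dp]
    rw [h3] at h2
    simp only [List.append_assoc, List.cons_append] at h1 h2 ⊢
    exact PWH.bBas.2.1 _ _ _ h1 h2

/-- The exchange of the two blocks. -/
private def swp_f (a : ℕ) (L : List (G × G)) : List (G × G) :=
  (L.drop a).take a ++ (L.take a).map (cj (Dp ((L.drop a).take a))⁻¹) ++ L.drop (a + a)

omit [Group G] in
private theorem swp_dec (a : ℕ) (L : List (G × G)) :
    L.take a ++ (L.drop a).take a ++ L.drop (a + a) = L := by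
  rw [List.append_assoc, ← List.drop_drop, List.take_append_drop, List.take_append_drop]

theorem thm_Swp : St_Swp := by
  intro hF G _ _ M a hM
  have hlen : ∀ L ∈ cls M, (L.take a).length = a ∧ ((L.drop a).take a).length = a := by
    intro L hL
    have h1 := len_cls hL
    constructor
    · rw [List.length_take]
      omega
    · rw [List.length_take, List.length_drop]
      omega
  refine ⟨swp_f a, ?_, ?_, ?_⟩
  · intro L hL
    have h1 := swp_lg hF (L.drop (a + a)) ((L.drop a).take a) (L.take a)
    rw [swp_dec] at h1
    exact mem_cls.2 (lg_trans (mem_cls.1 hL) h1)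
  · intro L hL L' hL' h
    obtain ⟨h1, h2⟩ := hlen L (Finset.mem_coe.1 hL)
    obtain ⟨h1', h2'⟩ := hlen L' (Finset.mem_coe.1 hL')
    unfold swp_f at h
    rw [List.append_assoc, List.append_assoc] at h
    obtain ⟨h3, h4⟩ := List.append_inj h (h2.trans h2'.symm)
    obtain ⟨h5, h6⟩ := List.append_inj h4 (by rw [List.length_map, List.length_map, h1, h1'])
    rw [h3] at h5
    have h7 := (List.map_injective_iff.2 (swp_cj_inj _)) h5
    rw [← swp_dec a L, ← swp_dec a L', h3, h6, h7]
  · intro L hL
    obtain ⟨h1, h2⟩ := hlen L hL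
    constructor
    · unfold swp_f
      rw [List.append_assoc, List.take_left' h2]
    · refine ⟨(Dp ((L.drop a).take a))⁻¹, ?_⟩
      unfold swp_f
      rw [List.append_assoc, List.drop_left' h2, List.take_left' (by rw [List.length_map, h1])]

end Pool.Agent.PWY
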