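import Pool.Agent.PWY.St

/-!
# Campaign PWY, module Two: the subgroup of the second block is contained in that of the first one

The proof follows the docstring of `St_Two`.
-/

set_option autoImplicit false

open scoped BigOperators

namespace Pool.Agent.PWY

open Pool.Agent.PW Pool.Agent.PWM Pool.Agent.PWB Pool.Agent.PWX Pool.Agent.PWF Pool.Agent.PWL
open scoped Classical

variable {G : Type} [Group G] [Fintype G]

/-- The letter `x` lies in the subgroup of the block `T`. -/
private def two_H (T : List (G × G)) (x : G) : Prop :=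
  ∃ A : Subgroup G, N1 (lam T) (un A) ≤ 1 / 16 ∧ x ∈ A

/-- The indicator of the bad event. -/
private noncomputable def two_F (P U _R : List (G × G)) : ℝ := if two_H P (hd2 U) then 0 else 1

private theorem two_lt (a : ℕ) (ha : 1 ≤ a) (L : List (G × G)) :
    lt a L = hd2 ((L.drop a).take a) := by
  rw [hd2_eq]
  unfold lt
  rw [List.getElem?_take_of_lt (by omega), List.getElem?_drop, Nat.add_zero]

private theorem two_gd (a : ℕ) (ha : 1 ≤ a) (L : List (G × G)) :
    Gd a L ↔ two_H (L.take a) (hd2 ((L.drop a).take a)) := by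
  unfold Gd two_H
  rw [two_lt a ha L]

/-- The conditional probability of the bad event. -/
private noncomputable def two_u (a : ℕ) (L : List (G × G)) : ℝ :=
  (∑ U ∈ cls ((L.drop a).take a), two_F (L.take a) U (L.drop (a + a))) /
    ((cls ((L.drop a).take a)).card : ℝ)

private theorem two_u_nonneg (a : ℕ) (L : List (G × G)) : 0 ≤ two_u a L := by
  unfold two_u
  refine div_nonneg (Finset.sum_nonneg fun U _ => ?_) (Nat.cast_nonneg _)
  unfold two_F
  split_ifs <;> norm_num

private theorem two_sum (hD : St_Dis) (M : List (G × G)) (a : ℕ) (ha : 1 ≤ a) :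
    (((cls M).filter fun L => ¬ Gd a L).card : ℝ) = ∑ L ∈ cls M, two_u a L := by
  have h := hD M a a (two_F (G := G))
  unfold two_u
  rw [← h, Finset.card_filter, Nat.cast_sum]
  refine Finset.sum_congr rfl fun L _ => ?_
  unfold two_F
  by_cases hg : Gd a L
  · rw [if_neg (by simpa using hg), if_pos ((two_gd a ha L).1 hg)]
    simp
  · rw [if_pos hg, if_neg (fun h2 => hg ((two_gd a ha L).2 h2))]
    simp

omit [Group G] [Fintype G] in
private theorem two_markov (O : Finset (List (G × G))) (u : List (G × G) → ℝ)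
    (hu : ∀ L ∈ O, 0 ≤ u L) :
    ((O.filter fun L => 1 / 4 ≤ u L).card : ℝ) * (1 / 4) ≤ ∑ L ∈ O, u L := by
  calc ((O.filter fun L => 1 / 4 ≤ u L).card : ℝ) * (1 / 4)
      = ∑ L ∈ O.filter (fun L => 1 / 4 ≤ u L), (1 / 4 : ℝ) := by
        rw [Finset.sum_const, nsmul_eq_mul]
    _ ≤ ∑ L ∈ O.filter (fun L => 1 / 4 ≤ u L), u L :=
        Finset.sum_le_sum fun L hL => (Finset.mem_filter.1 hL).2
    _ ≤ ∑ L ∈ O, u L :=
        Finset.sum_le_sum_of_subset_of_nonneg (Finset.filter_subset _ _) fun L hL _ => hu L hL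

private theorem two_good (hU : St_Unq) (a : ℕ) (L : List (G × G)) (h1 : two_u a L < 1 / 4)
    (B : Subgroup G) (hB : N1 (lam ((L.drop a).take a)) (un B) ≤ 1 / 16) :
    ∃ A B : Subgroup G, B ≤ A ∧ N1 (lam (L.take a)) (un A) ≤ 1 / 16 ∧
      N1 (lam ((L.drop a).take a)) (un B) ≤ 1 / 16 := by
  set T := L.take a with hT
  set U := (L.drop a).take a with hUU
  have hc : (0 : ℝ) < ((cls U).card : ℝ) := by
    have := card_cls_pos U
    exact_mod_cast this
  have hA : ∃ A : Subgroup G, N1 (lam T) (un A) ≤ 1 / 16 := by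
    by_contra hno
    have h2 : two_u a L = 1 := by
      unfold two_u
      rw [← hT, ← hUU]
      have h3 : ∀ U' ∈ cls U, two_F T U' (L.drop (a + a)) = 1 := by
        intro U' _
        unfold two_F
        rw [if_neg]
        rintro ⟨A, h4, _⟩
        exact hno ⟨A, h4⟩
      rw [Finset.sum_congr rfl h3, Finset.sum_const, nsmul_eq_mul, mul_one]
      exact div_self hc.ne'
    rw [h2] at h1
    norm_num at h1
  obtain ⟨A, hA⟩ := hA
  have hH : ∀ x : G, two_H T x ↔ x ∈ A := by
    intro x
    constructor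
    · rintro ⟨A', h4, h5⟩
      have h6 := (hU A' A (lam T) (lam T) (lam_pr T) (lam_pr T)).1 h4 hA
      rwa [h6] at h5
    · exact fun h => ⟨A, hA, h⟩
  have hsum : ∑ g, (if g ∈ A then 0 else lam U g) = two_u a L := by
    have h7 := lam_mul U fun g => if g ∈ A then (0 : ℝ) else 1
    have h8 : ∑ g, (if g ∈ A then 0 else lam U g) =
        ∑ g, lam U g * (if g ∈ A then (0 : ℝ) else 1) := by
      refine Finset.sum_congr rfl fun g _ => ?_
      split_ifs <;> simp
    rw [h8]
    unfold two_u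
    rw [← hT, ← hUU, eq_div_iff hc.ne', mul_comm, h7]
    refine Finset.sum_congr rfl fun U' _ => ?_
    unfold two_F
    by_cases h9 : hd2 U' ∈ A
    · rw [if_pos h9, if_pos ((hH _).2 h9)]
    · rw [if_neg h9, if_neg (fun h => h9 ((hH _).1 h))]
  refine ⟨A, B, ?_, hA, hB⟩
  exact (hU A B (lam U) (lam U) (lam_pr U) (lam_pr U)).2.1 hB (by rw [hsum]; exact h1)

theorem thm_Two : St_Two := by
  intro hU _ hD hS G _ _ M a ha hM hbad
  have hsumu := two_sum hD M a ha
  have hmk := two_markov (cls M) (two_u a) fun L _ => two_u_nonneg a L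
  obtain ⟨f, hf1, hf2, hf3⟩ := hS ‹_› M a hM
  set n : ℝ := ((cls M).card : ℝ) with hn
  have h1 : (((cls M).filter fun L => 1 / 4 ≤ two_u a L).card : ℝ) ≤ 3 / 8 * n := by
    have h2 := hmk.trans (hsumu.symm.le.trans hbad)
    linarith
  have h2 : (((cls M).filter fun L => ¬ ∃ B : Subgroup G,
      N1 (lam ((L.drop a).take a)) (un B) ≤ 1 / 16).card : ℝ) ≤ 3 / 32 * n := by
    refine le_trans ?_ hbad
    have h3 : ((cls M).filter fun L => ¬ ∃ B : Subgroup G,
        N1 (lam ((L.drop a).take a)) (un B) ≤ 1 / 16).card ≤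
        ((cls M).filter fun L => ¬ Gd a L).card := by
      refine Finset.card_le_card_of_injOn f ?_ ?_
      · intro L hL
        have hL' := Finset.mem_filter.1 hL
        refine Finset.mem_coe.2 (Finset.mem_filter.2 ⟨hf1 L hL'.1, ?_⟩)
        rintro ⟨A, h4, _⟩
        rw [(hf3 L hL'.1).1] at h4
        exact hL'.2 ⟨A, h4⟩
      · intro L hL L' hL' h5
        exact hf2 (Finset.mem_coe.2 (Finset.mem_filter.1 hL).1)
          (Finset.mem_coe.2 (Finset.mem_filter.1 hL').1) h5
    exact_mod_cast h3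
  have h3 : ((cls M).filter fun L => ¬ ∃ A B : Subgroup G, B ≤ A ∧
      N1 (lam (L.take a)) (un A) ≤ 1 / 16 ∧
      N1 (lam ((L.drop a).take a)) (un B) ≤ 1 / 16).card ≤
      ((cls M).filter fun L => 1 / 4 ≤ two_u a L).card +
      ((cls M).filter fun L => ¬ ∃ B : Subgroup G,
        N1 (lam ((L.drop a).take a)) (un B) ≤ 1 / 16).card := by
    refine le_trans (Finset.card_le_card ?_) (Finset.card_union_le _ _)
    intro L hL
    rw [Finset.mem_filter] at hL
    rw [Finset.mem_union, Finset.mem_filter, Finset.mem_filter]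
    by_cases h4 : 1 / 4 ≤ two_u a L
    · exact Or.inl ⟨hL.1, h4⟩
    · refine Or.inr ⟨hL.1, ?_⟩
      rintro ⟨B, hB⟩
      exact hL.2 (two_good hU a L (not_le.1 h4) B hB)
  have h4 : (((cls M).filter fun L => ¬ ∃ A B : Subgroup G, B ≤ A ∧
      N1 (lam (L.take a)) (un A) ≤ 1 / 16 ∧
      N1 (lam ((L.drop a).take a)) (un B) ≤ 1 / 16).card : ℝ) ≤
      (((cls M).filter fun L => 1 / 4 ≤ two_u a L).card : ℝ) +
      (((cls M).filter fun L => ¬ ∃ B : Subgroup G,
        N1 (lam ((L.drop a).take a)) (un B) ≤ 1 / 16).card : ℝ) := by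
    exact_mod_cast h3
  linarith

end Pool.Agent.PWY
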