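import Pool.Agent.PWY.StA

/-!
# Campaign PWY, module Unq: uniform laws of subgroups
-/

set_option autoImplicit false
set_option linter.unusedSectionVars false

open scoped BigOperators

namespace Pool.Agent.PWY

open scoped Classical

section

variable {G : Type} [Group G] [Fintype G]

private theorem Unq_card_pos (B : Subgroup G) : (0 : ℝ) < Nat.card B := by
  have : 0 < Nat.card B := Nat.card_pos
  exact_mod_cast this

/-- The sum of the uniform law over a subset. -/
private theorem Unq_sum (A B : Subgroup G) :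
    ∑ g, (if g ∈ A then un B g else 0) = (Nat.card (A ⊓ B : Subgroup G) : ℝ) / Nat.card B := by
  have h1 : ∀ g : G, (if g ∈ A then un B g else 0) =
      if g ∈ A ⊓ B then (Nat.card B : ℝ)⁻¹ else 0 := by
    intro g
    unfold un
    by_cases h2 : g ∈ A <;> by_cases h3 : g ∈ B <;> simp [h2, h3, Subgroup.mem_inf]
  rw [Finset.sum_congr rfl fun g _ => h1 g, ← Finset.sum_filter, Finset.sum_const, nsmul_eq_mul,
    Nat.card_eq_fintype_card (α := (A ⊓ B : Subgroup G)), Fintype.card_subtype, div_eq_mul_inv]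

private theorem Unq_un (B : Subgroup G) : ∑ g, un B g = 1 := by
  have h1 := Unq_sum (⊤ : Subgroup G) B
  simp only [Subgroup.mem_top, if_true, top_inf_eq] at h1
  rw [h1]
  exact div_self (Unq_card_pos B).ne'

private theorem Unq_half (A B : Subgroup G) (h : ¬ B ≤ A) :
    1 / 2 ≤ ∑ g, (if g ∈ A then 0 else un B g) := by
  have h1 : ∑ g, (if g ∈ A then 0 else un B g) + ∑ g, (if g ∈ A then un B g else 0) = 1 := by
    rw [← Unq_un B, ← Finset.sum_add_distrib]
    refine Finset.sum_congr rfl fun g _ => ?_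
    by_cases h2 : g ∈ A <;> simp [h2]
  rw [Unq_sum] at h1
  have h2 : (A ⊓ B : Subgroup G) ≤ B := inf_le_right
  obtain ⟨k, hk⟩ := Subgroup.card_dvd_of_le h2
  have hB := Unq_card_pos B
  have hk2 : 2 ≤ k := by
    by_contra hc
    have h3 : k = 0 ∨ k = 1 := by omega
    rcases h3 with rfl | rfl
    · rw [mul_zero] at hk
      rw [hk] at hB
      simp at hB
    · rw [mul_one] at hk
      have h4 : (A ⊓ B : Subgroup G) = B := Subgroup.eq_of_le_of_card_ge h2 hk.le
      exact h (h4 ▸ inf_le_left)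
  have h3 : (Nat.card (A ⊓ B : Subgroup G) : ℝ) / Nat.card B ≤ 1 / 2 := by
    rw [div_le_div_iff₀ hB (by norm_num)]
    have h4 : Nat.card (A ⊓ B : Subgroup G) * 2 ≤ 1 * Nat.card B := by
      rw [hk, one_mul]
      exact Nat.mul_le_mul_left _ hk2
    exact_mod_cast h4
  linarith

private theorem Unq_out (A : Subgroup G) (a b : G → ℝ) :
    ∑ g, (if g ∈ A then 0 else b g) ≤ ∑ g, (if g ∈ A then 0 else a g) + N1 a b := by
  unfold N1
  rw [← Finset.sum_add_distrib]
  refine Finset.sum_le_sum fun g _ => ?_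
  by_cases h : g ∈ A
  · simp only [h, if_true]
    have := abs_nonneg (a g - b g)
    linarith
  · simp only [h, if_false]
    have := neg_abs_le (a g - b g)
    linarith

private theorem Unq_comm (a b : G → ℝ) : N1 a b = N1 b a := by
  unfold N1
  exact Finset.sum_congr rfl fun g _ => abs_sub_comm _ _

private theorem Unq_tri (a b c : G → ℝ) : N1 a c ≤ N1 a b + N1 b c := by
  unfold N1
  rw [← Finset.sum_add_distrib]
  exact Finset.sum_le_sum fun g _ => abs_sub_le _ _ _

private theorem Unq_le (A B : Subgroup G) (μ : G → ℝ) (h1 : N1 μ (un A) ≤ 1 / 16)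
    (h2 : N1 μ (un B) ≤ 1 / 16) : B ≤ A := by
  by_contra hc
  have h3 := Unq_half A B hc
  have h4 := Unq_out A (un A) (un B)
  have h5 : ∑ g, (if g ∈ A then 0 else un A g) = 0 := by
    refine Finset.sum_eq_zero fun g _ => ?_
    by_cases h : g ∈ A <;> simp [un, h]
  have h6 := Unq_tri (un A) μ (un B)
  rw [Unq_comm (un A) μ] at h6
  linarith

theorem thm_Unq : St_Unq := by
  intro G _ _ A B μ ν hμ hν
  refine ⟨fun h1 h2 => le_antisymm (Unq_le B A μ h2 h1) (Unq_le A B μ h1 h2), ?_, ?_, ?_⟩
  · intro h1 h2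
    by_contra hc
    have h3 := Unq_half A B hc
    have h4 := Unq_out A μ (un B)
    linarith
  · intro h1 h2
    by_contra hc
    have hq : ∀ q, μ q = 0 ∨ ν q⁻¹ = 0 := by
      intro q
      by_contra h3
      rw [not_or] at h3
      exact hc ⟨q, lt_of_le_of_ne (hμ.nn q) (Ne.symm h3.1),
        lt_of_le_of_ne (hν.nn _) (Ne.symm h3.2)⟩
    have hA := Unq_card_pos A
    have h3 : ∀ g, (if g ∈ A then (Nat.card A : ℝ)⁻¹ else 0) ≤
        |μ g - un A g| + |ν g⁻¹ - un A g⁻¹| := by
      intro g
      by_cases hg : g ∈ A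
      · have e1 : un A g = (Nat.card A : ℝ)⁻¹ := by simp [un, hg]
        have e2 : un A g⁻¹ = (Nat.card A : ℝ)⁻¹ := by simp [un, hg]
        rw [if_pos hg, e1, e2]
        have hp : (0 : ℝ) < (Nat.card A : ℝ)⁻¹ := inv_pos.2 hA
        rcases hq g with h | h
        · rw [h, zero_sub, abs_neg, abs_of_pos hp]
          have := abs_nonneg (ν g⁻¹ - (Nat.card A : ℝ)⁻¹)
          linarith
        · rw [h, zero_sub, abs_neg, abs_of_pos hp]
          have := abs_nonneg (μ g - (Nat.card A : ℝ)⁻¹)
          linarith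
      · rw [if_neg hg]
        positivity
    have h4 : ∑ g, (if g ∈ A then (Nat.card A : ℝ)⁻¹ else 0) ≤
        ∑ g, |μ g - un A g| + ∑ g, |ν g⁻¹ - un A g⁻¹| := by
      rw [← Finset.sum_add_distrib]
      exact Finset.sum_le_sum fun g _ => h3 g
    have h5 : ∑ g, |ν g⁻¹ - un A g⁻¹| = N1 ν (un A) :=
      Fintype.sum_equiv (Equiv.inv G) _ _ fun g => rfl
    have h6 : ∑ g, (if g ∈ A then (Nat.card A : ℝ)⁻¹ else 0) = 1 := Unq_un A
    have h7 : ∑ g, |μ g - un A g| = N1 μ (un A) := rfl
    rw [h5, h6, h7] at h4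
    linarith
  · intro c hc h1
    refine ⟨B.map (MulAut.conj c⁻¹).toMonoidHom, ?_, ?_⟩
    · exact Nat.card_congr (B.equivMapOfInjective _ (MulAut.conj c⁻¹).injective).toEquiv.symm
    · have hcard : Nat.card (B.map (MulAut.conj c⁻¹).toMonoidHom) = Nat.card B :=
        Nat.card_congr (B.equivMapOfInjective _ (MulAut.conj c⁻¹).injective).toEquiv.symm
      have hmem : ∀ q, q ∈ B.map (MulAut.conj c⁻¹).toMonoidHom ↔ c * q * c⁻¹ ∈ B := by
        intro q
        rw [Subgroup.mem_map]
        constructor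
        · rintro ⟨x, hx, rfl⟩
          have : c * ((MulAut.conj c⁻¹).toMonoidHom x) * c⁻¹ = x := by
            show c * (c⁻¹ * x * c⁻¹⁻¹) * c⁻¹ = x
            group
          rw [this]
          exact hx
        · intro h
          refine ⟨c * q * c⁻¹, h, ?_⟩
          show c⁻¹ * (c * q * c⁻¹) * c⁻¹⁻¹ = q
          group
      have h2 : N1 μ (un (B.map (MulAut.conj c⁻¹).toMonoidHom)) = N1 ν (un B) := by
        unfold N1
        refine Fintype.sum_equiv (MulAut.conj c).toEquiv _ _ fun q => ?_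
        show |μ q - un (B.map (MulAut.conj c⁻¹).toMonoidHom) q| =
          |ν (c * q * c⁻¹) - un B (c * q * c⁻¹)|
        rw [hc q]
        congr 2
        unfold un
        rw [hcard]
        by_cases h : c * q * c⁻¹ ∈ B
        · rw [if_pos h, if_pos ((hmem q).2 h)]
        · rw [if_neg h, if_neg fun h' => h ((hmem q).1 h')]
      rw [h2]
      exact h1

end

end Pool.Agent.PWY
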