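import Pool.Agent.PWY.Pin
import Pool.Agent.PWY.Gap
import Pool.Agent.PWY.Ent
import Pool.Agent.PWY.Sub
import Pool.Agent.PWY.Unq
import Pool.Agent.PWY.Dis
import Pool.Agent.PWY.Let
import Pool.Agent.PWY.Avg
import Pool.Agent.PWY.Loc
import Pool.Agent.PWY.Glo
import Pool.Agent.PWY.Cjv
import Pool.Agent.PWY.Swp
import Pool.Agent.PWY.Two
import Pool.Agent.PWY.Fin
import Pool.Agent.PWY.Hlg

/-!
# Campaign PWY: a curve in the kernel, and every homomorphism to a finite group kills a handle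
-/

set_option autoImplicit false

namespace Pool.Agent.PWY

theorem all_Hlg : St_Hlg :=
  @thm_Hlg thm_Pin thm_Gap thm_Ent thm_Sub thm_Unq thm_Dis thm_Let thm_Avg thm_Loc thm_Glo
    thm_Cjv thm_Swp thm_Two thm_Fin

theorem all_Aly : St_Aly := thm_Aly all_Hlg

end Pool.Agent.PWY
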