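import Pool.Agent.PWY.DefsA
import Pool.Agent.PWL.Defs

/-!
# Campaign PWY: classes of lists under the moves, laws of letters

`open scoped Classical` is in force.
-/

set_option autoImplicit false

open scoped BigOperators

namespace Pool.Agent.PWY

open Pool.Agent.PW Pool.Agent.PWM Pool.Agent.PWB Pool.Agent.PWX Pool.Agent.PWF Pool.Agent.PWL
open scoped Classical

variable {G : Type} [Group G] [Fintype G]

theorem fin_cls (L : List (G × G)) : {L' : List (G × G) | LG L L'}.Finite :=
  (List.finite_length_eq (G × G) L.length).subset fun _ h => h.1.symm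

/-- The lists which are reached from `L` by the moves. -/
noncomputable def cls (L : List (G × G)) : Finset (List (G × G)) := (fin_cls L).toFinset

theorem mem_cls {L L' : List (G × G)} : L' ∈ cls L ↔ LG L L' := by simp [cls]

theorem self_mem (L : List (G × G)) : L ∈ cls L := mem_cls.2 (PWH.bBas.1 L)

theorem lg_trans {L L' L'' : List (G × G)} (h : LG L L') (h' : LG L' L'') : LG L L'' :=
  PWH.bBas.2.1 L L' L'' h h'

theorem lg_symm {L L' : List (G × G)} (h : LG L L') : LG L' L := PWH.bBas.2.2.1 L L' h

theorem cls_eq {L L' : List (G × G)} (h : L' ∈ cls L) : cls L' = cls L := by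
  rw [mem_cls] at h
  ext X
  rw [mem_cls, mem_cls]
  exact ⟨fun h2 => lg_trans h h2, fun h2 => lg_trans (lg_symm h) h2⟩

theorem len_cls {L L' : List (G × G)} (h : L' ∈ cls L) : L'.length = L.length :=
  (mem_cls.1 h).1.symm

theorem card_cls_pos (L : List (G × G)) : 0 < (cls L).card := Finset.card_pos.2 ⟨L, self_mem L⟩

/-- Moves in a block. -/
theorem app_cls (P : List (G × G)) {T T' : List (G × G)} (R : List (G × G)) (h : T' ∈ cls T) :
    P ++ T' ++ R ∈ cls (P ++ T ++ R) :=
  mem_cls.2 (PWH.bBas.2.2.2.1 P T T' R (mem_cls.1 h))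

/-- A class is closed under the moves, in the sense of campaign PWL. -/
theorem cl_cls (L : List (G × G)) : Cl L.length (cls L) where
  ne := ⟨L, self_mem L⟩
  len := fun _ h => len_cls h
  mv := fun L' h L'' h' => mem_cls.2 (lg_trans (mem_cls.1 h) h')

/-- The law of the letter of the first handle on the class of `L`. -/
noncomputable def lam (L : List (G × G)) (g : G) : ℝ := (cnt (cls L) hd2 g : ℝ) / (cls L).card

/-- The letter at the place `a`. -/
def lt (a : ℕ) (L : List (G × G)) : G := ((L[a]?).getD (1, 1)).2

theorem lam_eq {L L' : List (G × G)} (h : L' ∈ cls L) : lam L' = lam L := by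
  unfold lam
  rw [cls_eq h]

theorem lam_mul (L : List (G × G)) (φ : G → ℝ) :
    ((cls L).card : ℝ) * ∑ g, lam L g * φ g = ∑ L' ∈ cls L, φ (hd2 L') := by
  have h0 : ((cls L).card : ℝ) ≠ 0 := by
    have := card_cls_pos L
    positivity
  rw [← Finset.sum_fiberwise (cls L) hd2 (fun L' => φ (hd2 L')), Finset.mul_sum]
  refine Finset.sum_congr rfl fun g _ => ?_
  rw [Finset.sum_congr rfl (g := fun _ => φ g)
    (fun L' h => by rw [(Finset.mem_filter.1 h).2]), Finset.sum_const, nsmul_eq_mul]
  unfold lam cnt
  field_simp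

theorem lam_pr (L : List (G × G)) : Pr (lam L) where
  nn := fun g => by unfold lam; positivity
  sum := by
    have h0 : ((cls L).card : ℝ) ≠ 0 := by
      have := card_cls_pos L
      positivity
    have h1 := lam_mul L fun _ => 1
    simp only [mul_one, Finset.sum_const, nsmul_eq_mul] at h1
    exact mul_left_cancel₀ h0 (h1.trans (mul_one _).symm)

theorem lam_pos {L : List (G × G)} {g : G} (h : 0 < lam L g) : ∃ L' ∈ cls L, hd2 L' = g := by
  by_contra hc
  push Not at hc
  have : cnt (cls L) hd2 g = 0 := by
    unfold cnt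
    rw [Finset.card_eq_zero, Finset.filter_eq_empty_iff]
    exact fun L' h' => hc L' h'
  unfold lam at h
  rw [this] at h
  simp at h

theorem hd2_eq (L : List (G × G)) : hd2 L = lt 0 L := by
  cases L <;> simp [hd2, lt]

end Pool.Agent.PWY
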