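import Mathlib

/-!
# Campaign PWY: definitions, first part (only Mathlib)

`open scoped Classical` is in force.
-/

set_option autoImplicit false

open scoped BigOperators

namespace Pool.Agent.PWY

open scoped Classical

variable {G : Type}

/-- Probability vectors on a finite set. -/
structure Pr [Fintype G] (μ : G → ℝ) : Prop where
  nn : ∀ g, 0 ≤ μ g
  sum : ∑ g, μ g = 1

/-- The distance in `L¹`. -/
noncomputable def N1 [Fintype G] (μ ν : G → ℝ) : ℝ := ∑ g, |μ g - ν g|

/-- The entropy. -/
noncomputable def ent [Fintype G] (μ : G → ℝ) : ℝ := ∑ g, Real.negMulLog (μ g)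

/-- The uniform law of a subgroup. -/
noncomputable def un [Group G] (A : Subgroup G) (g : G) : ℝ :=
  if g ∈ A then (Nat.card A : ℝ)⁻¹ else 0

/-- The law of `x * Z` if `μ` is the law of `Z`. -/
def tr [Group G] (x : G) (μ : G → ℝ) (g : G) : ℝ := μ (x⁻¹ * g)

end Pool.Agent.PWY
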