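import Pool.Agent.PWY.StA

/-!
# Campaign PWY: Pin (a weak form of the inequality of Pinsker)
-/

set_option autoImplicit false

open scoped BigOperators

namespace Pool.Agent.PWY

open scoped Classical

private theorem Pin_pt (l m : ℝ) (hl : 0 ≤ l) (hm : 0 ≤ m) (h : m = 0 → l = 0) :
    2 * (l - √l * √m) ≤ l * (Real.log l - Real.log m) := by
  rcases hl.eq_or_lt with h0 | h0
  · rw [← h0]
    simp
  have hm0 : 0 < m := by
    rcases hm.eq_or_lt with h1 | h1
    · exact absurd (h h1.symm) h0.ne'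
    · exact h1
  have ha : 0 < √l := Real.sqrt_pos.2 h0
  have hb : 0 < √m := Real.sqrt_pos.2 hm0
  have e1 : Real.log l = 2 * Real.log √l := by rw [Real.log_sqrt hl]; ring
  have e2 : Real.log m = 2 * Real.log √m := by rw [Real.log_sqrt hm]; ring
  have e3 : Real.log (√m / √l) ≤ √m / √l - 1 := Real.log_le_sub_one_of_pos (div_pos hb ha)
  rw [Real.log_div hb.ne' ha.ne'] at e3
  have e4 : l = √l * √l := (Real.mul_self_sqrt hl).symm
  have e5 : l * (√m / √l) = √l * √m := by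
    rw [show l * (√m / √l) = (√l * √l) * (√m / √l) by rw [← e4]]
    field_simp
  have e6 : l * (Real.log √m - Real.log √l) ≤ l * (√m / √l - 1) :=
    mul_le_mul_of_nonneg_left e3 hl
  have e7 : l * (√m / √l - 1) = √l * √m - l := by
    rw [mul_sub, e5, mul_one]
  rw [e7] at e6
  rw [e1, e2]
  linarith [e6, mul_sub l (Real.log √m) (Real.log √l)]

theorem thm_Pin : St_Pin := by
  intro G _ l m hl hm h
  have hP : ∀ g, 2 * (l g - √(l g) * √(m g)) ≤ l g * (Real.log (l g) - Real.log (m g)) := fun g =>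
    Pin_pt _ _ (hl.nn g) (hm.nn g) (h g)
  have e1 : ∀ g, √(l g) * √(l g) = l g := fun g => Real.mul_self_sqrt (hl.nn g)
  have e2 : ∀ g, √(m g) * √(m g) = m g := fun g => Real.mul_self_sqrt (hm.nn g)
  -- the squares of the differences
  have h1 : ∑ g, (√(l g) - √(m g)) ^ 2 = ∑ g, 2 * (l g - √(l g) * √(m g)) := by
    have h2 : ∀ g, (√(l g) - √(m g)) ^ 2 = 2 * (l g - √(l g) * √(m g)) + (m g - l g) := by
      intro g
      have := e1 g
      have := e2 g
      nlinarith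
    rw [Finset.sum_congr rfl fun g _ => h2 g, Finset.sum_add_distrib, Finset.sum_sub_distrib,
      hl.sum, hm.sum, sub_self, add_zero]
  have h3 : ∑ g, (√(l g) - √(m g)) ^ 2 ≤ ∑ g, l g * (Real.log (l g) - Real.log (m g)) := by
    rw [h1]
    exact Finset.sum_le_sum fun g _ => hP g
  have h4 : ∑ g, (√(l g) + √(m g)) ^ 2 ≤ 4 := by
    have h5 : ∀ g, (√(l g) + √(m g)) ^ 2 ≤ 2 * l g + 2 * m g := by
      intro g
      have := e1 g
      have := e2 g
      nlinarith [sq_nonneg (√(l g) - √(m g))]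
    calc ∑ g, (√(l g) + √(m g)) ^ 2 ≤ ∑ g, (2 * l g + 2 * m g) :=
          Finset.sum_le_sum fun g _ => h5 g
      _ = 4 := by
          rw [Finset.sum_add_distrib, ← Finset.mul_sum, ← Finset.mul_sum, hl.sum, hm.sum]
          norm_num
  have h6 : N1 l m = ∑ g, |√(l g) - √(m g)| * (√(l g) + √(m g)) := by
    unfold N1
    refine Finset.sum_congr rfl fun g _ => ?_
    have h7 : 0 ≤ √(l g) + √(m g) := add_nonneg (Real.sqrt_nonneg _) (Real.sqrt_nonneg _)
    rw [← abs_of_nonneg h7, ← abs_mul]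
    congr 1
    have := e1 g
    have := e2 g
    nlinarith
  have h8 := Finset.sum_mul_sq_le_sq_mul_sq Finset.univ (fun g => |√(l g) - √(m g)|)
    (fun g => √(l g) + √(m g))
  rw [← h6] at h8
  have h9 : ∑ g, |√(l g) - √(m g)| ^ 2 = ∑ g, (√(l g) - √(m g)) ^ 2 :=
    Finset.sum_congr rfl fun g _ => sq_abs _
  rw [h9] at h8
  have h10 : 0 ≤ ∑ g, (√(l g) - √(m g)) ^ 2 := Finset.sum_nonneg fun g _ => sq_nonneg _
  calc N1 l m ^ 2 ≤ (∑ g, (√(l g) - √(m g)) ^ 2) * ∑ g, (√(l g) + √(m g)) ^ 2 := h8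
    _ ≤ (∑ g, (√(l g) - √(m g)) ^ 2) * 4 := mul_le_mul_of_nonneg_left h4 h10
    _ ≤ 4 * ∑ g, l g * (Real.log (l g) - Real.log (m g)) := by linarith

end Pool.Agent.PWY
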