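import Pool.Agent.PWY.DefsA

/-!
# Campaign PWY: statements, first part (only Mathlib)

Aim of the campaign: a homomorphism from the group of a surface of genus `K` to a finite group `Q`
kills a handle if `K ≥ C log |Q|`.  The idea is explained in the file PWY/St.  This part: analysis on
finite groups.  `open scoped Classical` is in force everywhere.
-/

set_option autoImplicit false

open scoped BigOperators

namespace Pool.Agent.PWY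

open scoped Classical

/-- (Pin) A weak form of the inequality of Pinsker.
Proof.  For `l, m > 0`: `l (log l - log m) = - 2 l log √(m / l) ≥ 2 l (1 - √(m / l)) = 2 (l - √(l m))` (`log t ≤ t - 1`);
for `l = 0` the inequality `l (log l - log m) ≥ 2 (l - √(l m))` is `0 ≥ 0`.  The sum over `g`: the right-hand side of the
claim is `≥ 4 (2 - 2 ∑ √(λ μ)) = 4 ∑ (√λ - √μ) ^ 2`.  And `|λ - μ| = |√λ - √μ| (√λ + √μ)`, so with Cauchy-Schwarz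
`N1 λ μ ^ 2 ≤ ∑ (√λ - √μ) ^ 2 * ∑ (√λ + √μ) ^ 2 ≤ 4 ∑ (√λ - √μ) ^ 2`, because `(√λ + √μ) ^ 2 ≤ 2 (λ + μ)`. -/
def St_Pin : Prop := ∀ {G : Type} [Fintype G] (l m : G → ℝ), Pr l → Pr m →
  (∀ g, m g = 0 → l g = 0) →
  N1 l m ^ 2 ≤ 4 * ∑ g, l g * (Real.log (l g) - Real.log (m g))

/-- (Gap) The gap in the inequality of Jensen for the entropy.
Proof.  `Pr μ`: `|O| > 0`.  `|O| ent μ = ∑_g |O| μ g (- log (μ g)) = ∑_ω ∑_g Λ ω g (- log (μ g))`, so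
`|O| ent μ - ∑_ω ent (Λ ω) = ∑_ω ∑_g Λ ω g (log (Λ ω g) - log (μ g))`; if `μ g = 0` then `Λ ω g = 0` for all `ω ∈ O` (terms
`≥ 0` with sum `0`).  `St_Pin` for every `ω`. -/
def St_Gap : Prop := St_Pin → ∀ {Ω G : Type} [Fintype G] (O : Finset Ω) (Λ : Ω → G → ℝ)
  (μ : G → ℝ), O.Nonempty → (∀ ω ∈ O, Pr (Λ ω)) →
  (∀ g, ∑ ω ∈ O, Λ ω g = (O.card : ℝ) * μ g) →
  Pr μ ∧ ∑ ω ∈ O, N1 (Λ ω) μ ^ 2 ≤ 4 * ((O.card : ℝ) * ent μ - ∑ ω ∈ O, ent (Λ ω))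

/-- (Ent) Bounds for the entropy; translations.
Proof.  `negMulLog ≥ 0` on `[0, 1]`.  Upper bound: `St_Pin` for `μ` and the constant `1 / |G|` (or Jensen).  Translations: the
bijection `g ↦ x⁻¹ * g`. -/
def St_Ent : Prop := St_Pin → ∀ {G : Type} [Group G] [Fintype G] (μ : G → ℝ), Pr μ →
  0 ≤ ent μ ∧ ent μ ≤ Real.log (Fintype.card G) ∧
  ∀ x : G, Pr (tr x μ) ∧ ent (tr x μ) = ent μ ∧ ∀ ν : G → ℝ, N1 (tr x μ) (tr x ν) = N1 μ ν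

/-- (Sub) A law which is nearly invariant under its own elements is nearly uniform on a subgroup.
Proof.  `S r = {q | N1 (tr q μ) μ ≤ r}`.  `tr (a * b) μ = tr a (tr b μ)`, so `N1 (tr (a * b) μ) μ ≤ N1 (tr b μ) μ + N1 (tr a μ) μ`,
`N1 (tr a⁻¹ μ) μ = N1 (tr a μ) μ`, `1 ∈ S r`.  By Markov the `μ`-mass of `S s` is at least `1 - s`.  If `q ∈ S (4 s)`: the mass
of `q⁻¹ (S s)` is `∑ g ∈ S s, tr q μ g ≥ 1 - s - 4 s`; `(1 - s) + (1 - 5 s) > 1` as `s ≤ 1 / 7`; so there is `t` with `t ∈ S s`, `q * t ∈ S s`,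
`q = (q t) t⁻¹ ∈ S (2 s)`.  So `A = S (2 s)` is a subgroup.  Let `μ' g = |A|⁻¹ ∑ a ∈ A, tr a μ g`: `N1 μ' μ ≤ 2 s`.  For `g ∈ A` it is
`μ(A) / |A|`, and `∑ g ∉ A, μ' g = 1 - μ(A) ≤ s` (for `a ∈ A`: `a⁻¹ g ∉ A` iff `g ∉ A`).  So `N1 μ' (un A) ≤ 2 s`. -/
def St_Sub : Prop := ∀ {G : Type} [Group G] [Fintype G] (μ : G → ℝ), Pr μ → ∀ s : ℝ, 0 < s →
  s ≤ 1 / 7 → ∑ x, μ x * N1 (tr x μ) μ ≤ s ^ 2 → ∃ A : Subgroup G, N1 μ (un A) ≤ 4 * s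

/-- (Unq) Uniform laws of subgroups.
Proof.  (1) If `A ≠ B`, then not `B ≤ A` or not `A ≤ B`; say not `B ≤ A`: `A ⊓ B` has at most half of the elements of `B`, so
`∑ g ∈ B \ A, |un A g - un B g| ≥ 1 / 2`, and `∑ g ∈ A, (un A g - un B g) ≥ 1 - 1 / 2`; so `N1 (un A) (un B) ≥ 1`; but it is `≤ 1 / 8`.
(2) Otherwise `A ⊓ B` has at most half of the elements of `B`: `1 / 2 ≤ ∑ g ∉ A, un B g ≤ ∑ g ∉ A, μ g + N1 μ (un B) < 1 / 2`.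
(3) Otherwise for all `g ∈ A`: `μ g = 0` or `ν g⁻¹ = 0`, so `|A|⁻¹ ≤ |μ g - un A g| + |ν g⁻¹ - un A g⁻¹|`; sum over `g ∈ A`: `1 ≤ 1 / 8`.
(4) `g ↦ c * g * c⁻¹` is a bijection of `G`; it maps `A` to `A.map (MulAut.conj c)`. -/
def St_Unq : Prop := ∀ {G : Type} [Group G] [Fintype G] (A B : Subgroup G) (μ ν : G → ℝ), Pr μ → Pr ν →
  (N1 μ (un A) ≤ 1 / 16 → N1 μ (un B) ≤ 1 / 16 → A = B) ∧
  (N1 μ (un B) ≤ 1 / 16 → ∑ g, (if g ∈ A then 0 else μ g) < 1 / 4 → B ≤ A) ∧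
  (N1 μ (un A) ≤ 1 / 16 → N1 ν (un A) ≤ 1 / 16 → ∃ q, 0 < μ q ∧ 0 < ν q⁻¹) ∧
  ∀ c : G, (∀ q, ν (c * q * c⁻¹) = μ q) → N1 ν (un B) ≤ 1 / 16 →
    ∃ B' : Subgroup G, Nat.card B' = Nat.card B ∧ N1 μ (un B') ≤ 1 / 16

end Pool.Agent.PWY
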