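import Pool.Agent.PWY.Base
import Pool.Agent.PWY.StA
import Pool.Agent.PWL.Frt
import Pool.Agent.PWL.Ded
import Pool.Agent.PWS.Defs

/-!
# Campaign PWY: statements (any finite group, `C log |Q|` handles)

Idea.  Let `O` be the class of a list of `K` pairs under the moves, with the uniform probability.  For a block `T` of a
list let `[T]` be its class and `lam T` the law of the letter of its first handle on the class.  KEY FACT (`St_Dis`): given
the classes of disjoint blocks, the blocks are independent and uniform on their classes.  The mean entropy `h k` of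
`lam (L.take k)` increases with `k` and is at most `log |Q|`, so `h (a + 1) - h a` is small for some `a ≤ K / 2`.  Then
(`St_Avg`, `St_Loc`) `lam (L.take a)` is near to `lam (L.take (a + 1))`, which is nearly invariant under its own letters, so it is
nearly uniform on a subgroup `A` (`St_Sub`), and the letter at the place `a`, outside of the block `T = L.take a`, lies in `A`
(`Gd a L`, `St_Glo`).  This letter is the first letter of the block `U` of the next `a` handles, so the subgroup `B` of `U` is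
contained in `A` (`St_Two`).  Exchange of the blocks gives `|A| ≤ |B|`, so `A = B`, the letters of the class of `T` and those
of the class of `U` fill more than half of `A`, and by the key fact there is a list in which the two letters are inverse; their product
is a curve in the kernel (`St_Fin`).  With `log₂ |Q| + 1` more handles a handle is killed (`PWL.St_Ded`).

`open scoped Classical` is in force everywhere.
-/

set_option autoImplicit false

open scoped BigOperators

namespace Pool.Agent.PWY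

open Pool.Agent.PW Pool.Agent.PWM Pool.Agent.PWB Pool.Agent.PWX Pool.Agent.PWF Pool.Agent.PWL
open scoped Classical

/-- (Dis) A block is uniform on its class, independently of the rest of the list.
Proof.  Write `P = L.take a`, `U = (L.drop a).take b`, `R = L.drop (a + b)`, `L = P ++ U ++ R`.  The right-hand side is the sum over the pairs
`(L, U')`, `L ∈ cls M`, `U' ∈ cls U`, of `F P U' R / |cls U|`.  The map `(L, U') ↦ (P ++ U' ++ R, U)` is an involution of the set of these pairs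
(`app_cls`, `cls_eq`, `len_cls`; the lengths of `U` and `U'` agree, so `P`, `U'`, `R` are the three parts of `P ++ U' ++ R`), and `|cls U'| = |cls U|`.  So the sum is the sum
over the pairs of `F P U R / |cls U|`, that is `∑_L F P U R`. -/
def St_Dis : Prop := ∀ {G : Type} [Group G] [Fintype G] (M : List (G × G)) (a b : ℕ)
  (F : List (G × G) → List (G × G) → List (G × G) → ℝ),
  ∑ L ∈ cls M, F (L.take a) ((L.drop a).take b) (L.drop (a + b)) =
    ∑ L ∈ cls M, (∑ U ∈ cls ((L.drop a).take b), F (L.take a) U (L.drop (a + b))) /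
      ((cls ((L.drop a).take b)).card : ℝ)

/-- (Let) The law of a letter does not depend on the place; the product of two letters is a letter.
Proof.  `PWL.St_Frt` (4), (5) for `O = cls M` (`cl_cls`): `f` permutes `cls M` (injective, finite), `lt a L = hd2 (f L)`, respectively
`hd2 (f L) = lt (a + 1) L * hd2 L`. -/
def St_Let : Prop := St_Frt → ∀ {G : Type} [Group G] [Fintype G] (M : List (G × G)) (φ : G → ℝ) (a : ℕ),
  (a < M.length → ∑ L ∈ cls M, φ (lt a L) = ∑ L ∈ cls M, φ (hd2 L)) ∧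
  (a + 1 < M.length → ∑ L ∈ cls M, φ (lt (a + 1) L * hd2 L) = ∑ L ∈ cls M, φ (hd2 L))

/-- (Avg) Averages over a class, `M` a list of `a + 1` handles.
Proof.  (1) `|cls M| lam M g` is the number of the `L ∈ cls M` with `hd2 L = g` (`lam_mul`); `hd2 L = hd2 (L.take a)`; `St_Dis` for the block at the places `0, ..., a - 1` and
`F P U R = if hd2 U = g then 1 else 0`.  (2) In the same way with `St_Let` (2) (`a = (a - 1) + 1`) and `F P U R = if lt 0 R * hd2 U = g then 1 else 0`, where `R = L.drop a`, `lt 0 R = lt a L`: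
`lt a L * z = g` iff `z = (lt a L)⁻¹ * g`.  (3) `St_Let` (1) and `lam_mul`. -/
def St_Avg : Prop := St_Frt → St_Dis → St_Let → ∀ {G : Type} [Group G] [Fintype G]
  (M : List (G × G)) (a : ℕ), 1 ≤ a → M.length = a + 1 →
  (∀ g, ∑ L ∈ cls M, lam (L.take a) g = ((cls M).card : ℝ) * lam M g) ∧
  (∀ g, ∑ L ∈ cls M, tr (lt a L) (lam (L.take a)) g = ((cls M).card : ℝ) * lam M g) ∧
  ∀ φ : G → ℝ, ∑ L ∈ cls M, φ (lt a L) = ((cls M).card : ℝ) * ∑ g, lam M g * φ g

/-- The first `a` handles have the subgroup `A`, and the letter at the place `a` lies in `A`. -/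
def Gd {G : Type} [Group G] [Fintype G] (a : ℕ) (L : List (G × G)) : Prop :=
  ∃ A : Subgroup G, N1 (lam (L.take a)) (un A) ≤ 1 / 16 ∧ lt a L ∈ A

/-- (Loc) A class with a small gap of the entropy.
Proof.  `n = |cls M|`, `O = cls M`, `λ = lam M`.  `St_Gap` for `Λ L = lam (L.take a)` (`St_Avg` (1)): `∑ N1 (lam (L.take a)) λ ^ 2 ≤ 4 n / 2 ^ 32`, so by Cauchy-Schwarz
`∑ N1 (lam (L.take a)) λ ≤ n / 2 ^ 15`.  The same for `Λ L = tr (lt a L) (lam (L.take a))` (`St_Avg` (2), the entropies are the same, `St_Ent`).  So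
`∑_L N1 (tr (lt a L) λ) λ ≤ ∑_L (N1 (tr (lt a L) λ) (tr (lt a L) (lam (L.take a))) + N1 (tr (lt a L) (lam (L.take a))) λ) ≤ n / 2 ^ 14`, and by `St_Avg` (3) `∑_g λ g N1 (tr g λ) λ ≤ 1 / 2 ^ 14`.
`St_Sub` with `s = 1 / 2 ^ 7`: `N1 λ (un A) ≤ 1 / 32`.  The number of the `L` with `N1 (lam (L.take a)) λ > 1 / 32` is at most `32 n / 2 ^ 15` (Markov), for the others
`N1 (lam (L.take a)) (un A) ≤ 1 / 16`.  The number of the `L` with `lt a L ∉ A` is `n ∑_(g ∉ A) λ g ≤ n N1 λ (un A) ≤ n / 32` (`St_Avg` (3)).  `32 / 2 ^ 15 + 1 / 32 ≤ 1 / 16`. -/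
def St_Loc : Prop := St_Pin → St_Gap → St_Ent → St_Sub → St_Frt → St_Dis → St_Let → St_Avg →
  ∀ {G : Type} [Group G] [Fintype G] (M : List (G × G)) (a : ℕ), 1 ≤ a → M.length = a + 1 →
  ∑ L ∈ cls M, ent (lam (L.take a)) ≤ ((cls M).card : ℝ) * ent (lam M) ∧
  (((cls M).card : ℝ) * ent (lam M) - ∑ L ∈ cls M, ent (lam (L.take a)) ≤
      1 / 2 ^ 32 * ((cls M).card : ℝ) →
    (((cls M).filter fun L => ¬ Gd a L).card : ℝ) ≤ 1 / 16 * ((cls M).card : ℝ))

/-- (Glo) For some `a` most lists are good.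
Proof.  `O = cls M`, `n = |O|`, `h j = (∑_(L ∈ O) ent (lam (L.take j))) / n ∈ [0, log |G|]` (`St_Ent`).  If `h (a + 1) - h a > 1 / 2 ^ 37` for all `1 ≤ a ≤ k`, then `k / 2 ^ 37 < log |G|`.  So some
`a`, `1 ≤ a ≤ k`, has `h (a + 1) - h a ≤ 1 / 2 ^ 37`.  For a list `N` of `a + 1` handles let `gap N = ent (lam N) - (∑_(N' ∈ cls N) ent (lam (N'.take a))) / |cls N| ≥ 0` (the last hypothesis, which is `St_Loc`); it depends only on the class
of `N`.  `St_Dis` for the block at the places `0, ..., a` (`(L.take (a + 1)).take a = L.take a`): `∑_(L ∈ O) gap (L.take (a + 1)) = n (h (a + 1) - h a) ≤ n / 2 ^ 37`.  So `gap (L.take (a + 1)) > 1 / 2 ^ 32` for at most `n / 32` of the `L`.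
`Gd a L` iff `Gd a (L.take (a + 1))`.  By `St_Dis` again the number of the `L ∈ O` with `¬ Gd a L` is `∑_(L ∈ O) (number of the N' ∈ cls (L.take (a + 1)) with ¬ Gd a N') / |cls (L.take (a + 1))| ≤ n / 32 + n / 16` (`St_Loc`). -/
def St_Glo : Prop := St_Pin → St_Ent → St_Dis → ∀ {G : Type} [Group G] [Fintype G]
  (M : List (G × G)) (k : ℕ), 1 ≤ k → k + 1 ≤ M.length → Real.log (Fintype.card G) ≤ k / 2 ^ 37 →
  (∀ (N : List (G × G)) (a : ℕ), 1 ≤ a → N.length = a + 1 →
    ∑ L ∈ cls N, ent (lam (L.take a)) ≤ ((cls N).card : ℝ) * ent (lam N) ∧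
    (((cls N).card : ℝ) * ent (lam N) - ∑ L ∈ cls N, ent (lam (L.take a)) ≤
        1 / 2 ^ 32 * ((cls N).card : ℝ) →
      (((cls N).filter fun L => ¬ Gd a L).card : ℝ) ≤ 1 / 16 * ((cls N).card : ℝ))) →
  ∃ a, 1 ≤ a ∧ a ≤ k ∧
    (((cls M).filter fun L => ¬ Gd a L).card : ℝ) ≤ 3 / 32 * ((cls M).card : ℝ)

/-- (Cjv) Conjugation.
Proof.  `Step lo hi x y` implies `Step lo hi (cj c ∘ x) (cj c ∘ y)` for the three kinds of moves (`dd`, `rt`, `tv` commute with conjugation), so `Go` too; `LG`: given `x` with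
`At m (L.map (cj c)) x` apply `LG L L'` to `cj c⁻¹ ∘ x`.  `cls (L.map (cj c))` is the image of `cls L` under the injective map `List.map (cj c)`, and
`hd2 (L'.map (cj c)) = c * hd2 L' * c⁻¹` (also for `L' = []`). -/
def St_Cjv : Prop := ∀ {G : Type} [Group G] [Fintype G] (c : G) (L : List (G × G)),
  (∀ L', LG L L' → LG (L.map (cj c)) (L'.map (cj c))) ∧
  ∀ q, lam (L.map (cj c)) (c * q * c⁻¹) = lam L q

/-- (Swp) Exchange of two neighbouring blocks of `a` handles.
Proof.  `LG (T ++ U ++ R) (U ++ T.map (cj (Dp U)⁻¹) ++ R)` by induction on `U` (`St_Frt` (1); `Dp (u :: U) = dd u * Dp U`, `cj` is multiplicative).  `f L = U ++ T.map (cj (Dp U)⁻¹) ++ R` for `T = L.take a`,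
`U = (L.drop a).take a`, `R = L.drop (a + a)`; injective: `U`, `R` and then `T` are determined by `f L` (`cj` is injective). -/
def St_Swp : Prop := St_Frt → ∀ {G : Type} [Group G] [Fintype G] (M : List (G × G)) (a : ℕ),
  a + a ≤ M.length → ∃ f : List (G × G) → List (G × G), (∀ L ∈ cls M, f L ∈ cls M) ∧
    Set.InjOn f (cls M : Set (List (G × G))) ∧
    ∀ L ∈ cls M, (f L).take a = (L.drop a).take a ∧
      ∃ c : G, ((f L).drop a).take a = (L.take a).map (cj c)

/-- (Two) The subgroup of the second block is contained in that of the first one.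
Proof.  `n = |cls M|`, `T = L.take a`, `U = (L.drop a).take a`, `R = L.drop (a + a)`.  `Gd a L` depends only on `T` and `hd2 U` (`lt a L = hd2 U`, as `a ≥ 1`): `Gd a L ↔ H T (hd2 U)` with `H T x = ∃ A, N1 (lam T) (un A) ≤ 1 / 16 ∧ x ∈ A`.
By `St_Dis` (block `a, ..., 2 a - 1`) the number of the `L` with `¬ Gd a L` is `∑_L u L`, `u L = (number of the U' ∈ cls U with ¬ H T (hd2 U')) / |cls U|`.  So `u L ≥ 1 / 4` for at most `(3 / 8) n` of the `L`.
By `St_Swp` the number of the `L` for which `U` has no subgroup (`¬ ∃ B, N1 (lam U) (un B) ≤ 1 / 16`) is at most the number of the `L` with `¬ Gd a (f L)`, so at most `(3 / 32) n`.  For all the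
other `L` (`≥ n (1 - 15 / 32)`): `u L < 1 / 4`, so there is `U'` with `H T (hd2 U')`, so `N1 (lam T) (un A) ≤ 1 / 16` for some `A`; by uniqueness (`St_Unq` (1)) `H T x ↔ x ∈ A`, and
`u L = ∑_(g ∉ A) lam U g` (`lam_mul`) `< 1 / 4`; `N1 (lam U) (un B) ≤ 1 / 16`; `St_Unq` (2). -/
def St_Two : Prop := St_Unq → St_Frt → St_Dis → St_Swp → ∀ {G : Type} [Group G] [Fintype G]
  (M : List (G × G)) (a : ℕ), 1 ≤ a → a + a ≤ M.length →
  (((cls M).filter fun L => ¬ Gd a L).card : ℝ) ≤ 3 / 32 * ((cls M).card : ℝ) →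
  (((cls M).filter fun L => ¬ ∃ A B : Subgroup G, B ≤ A ∧ N1 (lam (L.take a)) (un A) ≤ 1 / 16 ∧
    N1 (lam ((L.drop a).take a)) (un B) ≤ 1 / 16).card : ℝ) ≤ 15 / 32 * ((cls M).card : ℝ)

/-- (Fin) A simple closed curve in the kernel.
Proof.  `f` from `St_Swp`.  The event of `St_Two` holds for `L` and for `f L` for more than `(1 - 30 / 32) n > 0` of the `L` (`f` is injective).  Take such an `L`; `T, U, R` as above.  `B ≤ A`,
`N1 (lam T) (un A) ≤ 1 / 16`, `N1 (lam U) (un B) ≤ 1 / 16`; for `f L`: `B' ≤ A'`, `N1 (lam U) (un A') ≤ 1 / 16`, so `A' = B` (`St_Unq` (1)), and `N1 (lam (T.map (cj c))) (un B') ≤ 1 / 16`, so by `St_Cjv`, `St_Unq` (4)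
`N1 (lam T) (un B'') ≤ 1 / 16` with `|B''| = |B'|`, and `B'' = A`.  So `|A| = |B'| ≤ |A'| = |B|` and `B ≤ A`, hence `A = B`.  `St_Unq` (3) (for `lam U`, `lam T`): `q` with `lam U q > 0`, `lam T q⁻¹ > 0`; `lam_pos`: `U' ∈ cls U`,
`hd2 U' = q`, `T' ∈ cls T`, `hd2 T' = q⁻¹`.  `T' ++ U' ++ R ∈ cls M` (`app_cls` twice).  `T' = t :: T₁`, `U' = v :: U₁` (lengths `a ≥ 1`).  `St_Frt` (1): `LG (t :: (T₁ ++ v :: ..)) (t :: v :: ..)` (in context), `St_Frt` (2): the first letter becomes
`v.2 * t.2 = q * q⁻¹ = 1`. -/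
def St_Fin : Prop := St_Unq → St_Frt → St_Cjv → St_Swp → ∀ {G : Type} [Group G] [Fintype G]
  (M : List (G × G)) (a : ℕ), 1 ≤ a → a + a ≤ M.length →
  (((cls M).filter fun L => ¬ ∃ A B : Subgroup G, B ≤ A ∧ N1 (lam (L.take a)) (un A) ≤ 1 / 16 ∧
    N1 (lam ((L.drop a).take a)) (un B) ≤ 1 / 16).card : ℝ) ≤ 15 / 32 * ((cls M).card : ℝ) →
  ∃ (p : G × G) (L' : List (G × G)), LG M (p :: L') ∧ p.2 = 1

/-- (Hlg) A simple closed curve in the kernel, from `2 ^ 38 (log₂ |G| + 1)` handles on.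
Proof.  `k = M.length / 2`: `log |G| ≤ Nat.log 2 |G| + 1 ≤ k / 2 ^ 37`.  `St_Glo`, `St_Two`, `St_Fin`. -/
def St_Hlg : Prop := ∀ {G : Type} [Group G] [Finite G] (M : List (G × G)),
  2 ^ 38 * (Nat.log 2 (Nat.card G) + 1) ≤ M.length →
  ∃ (p : G × G) (L' : List (G × G)), LG M (p :: L') ∧ p.2 = 1

/-- (Aly) Every homomorphism to a finite group kills a handle: `C (log₂ |Q| + 1)` handles are enough. -/
def St_Aly : Prop := ∀ {Q : Type} [Group Q] [Finite Q] (h : ℕ),
  2 ^ 39 * (Nat.log 2 (Nat.card Q) + 1) ≤ h → ∀ ρ : F h 0 →* Q, PWS.Dead ρ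

end Pool.Agent.PWY
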